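import Pool.Agent.H68.BE.Def

set_option autoImplicit false

/-!
# Elementary consequences of the hypotheses (proved)
-/

open Finset

namespace Pool.Agent.H68.BE

open Pool.Agent.H78.Bass

variable {M : ℕ} {p q a : ℝ} {w : Fin M → Fin M → ℝ}

theorem Hyp.M1 (H : Hyp p q a w) : (2 : ℝ) ≤ (M : ℝ) - 1 := by
  have h := H.hM
  have h' : (3 : ℝ) ≤ (M : ℝ) := by exact_mod_cast h
  linarith

theorem Hyp.a_pos (H : Hyp p q a w) : 0 < a := by
  have h1 := H.M1
  have h2 := H.ha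
  have h3 := H.hq
  by_contra h
  push Not at h
  nlinarith

theorem mem_lev {m : ℕ} {B : Finset (Fin M)} : B ∈ lev M m ↔ B.card = m := by
  simp [lev, mem_powersetCard]

theorem wm_two (a : ℝ) : wm a 2 = 2 * a := by
  unfold wm
  push_cast
  ring

theorem wm_three (a : ℝ) : wm a 3 = 6 * a := by
  unfold wm
  push_cast
  ring

theorem Hyp.wm_pos (H : Hyp p q a w) {m : ℕ} (hm : 2 ≤ m) : 0 < wm a m := by
  have h := H.a_pos
  have h2 : (2 : ℝ) ≤ (m : ℝ) := by exact_mod_cast hm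
  unfold wm
  have h3 : 0 < (m : ℝ) - 1 := by linarith
  positivity

theorem Hyp.lam_nonneg (H : Hyp p q a w) {m : ℕ} (hm : m ≤ M) : 0 ≤ lam q a m := by
  unfold lam wm
  rw [← H.ha]
  have h2 : (m : ℝ) ≤ (M : ℝ) := by exact_mod_cast hm
  have h3 := H.a_pos
  have h4 : (0 : ℝ) ≤ (m : ℝ) := Nat.cast_nonneg m
  have h5 : (m : ℝ) * (((M : ℝ) - 1) * a) - (m : ℝ) * ((m : ℝ) - 1) * a =
      (m : ℝ) * ((M : ℝ) - m) * a := by ring
  rw [h5]
  have h6 : 0 ≤ (M : ℝ) - m := by linarith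
  positivity

theorem Hyp.lam_top (H : Hyp p q a w) : lam q a M = 0 := by
  unfold lam wm
  rw [← H.ha]
  ring

theorem Hyp.wm_le (H : Hyp p q a w) {m : ℕ} (hm : m ≤ M) : wm a m ≤ (m : ℝ) * q := by
  have h := H.lam_nonneg hm
  unfold lam at h
  linarith

theorem lm_eq (p q a : ℝ) (m : ℕ) : lm p q a m = (m : ℝ) * p + lam q a m := by
  unfold lm lam
  ring

theorem Hyp.lm_ge (H : Hyp p q a w) {m : ℕ} (hm : m ≤ M) : (m : ℝ) * p ≤ lm p q a m := by
  rw [lm_eq]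
  have h := H.lam_nonneg hm
  linarith

theorem Hyp.lm_sub (H : Hyp p q a w) {m : ℕ} (hm : m ≤ M) :
    ((m : ℝ) - 1) * p - q ≤ lm p q a m - (p + q) := by
  have h := H.wm_le hm
  unfold lm
  linarith

theorem Hyp.N2_nonneg (_H : Hyp p q a w) : 0 ≤ N2 a w := by
  unfold N2
  exact sum_nonneg fun B _ => sq_nonneg _

end Pool.Agent.H68.BE
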