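import Pool.Agent.H68.BE.Bas
import Pool.Agent.H68.BE.CnA

set_option autoImplicit false

/-!
# Module CnB: counting, second part

`exc_lev`: for `m ≤ 1` every `exc a w B = 0` (`exc_small`). For `m = n + 2`: `exc a w B = ∑ e ∈ powersetCard 2 B, exc a w e`
(`exc_pairs`), so the sum over `B` is `(M-2).choose (m-2)` times `∑ e ∈ lev M 2, exc a w e` (`sum_pairs`), and the latter
is `∑ j, ∑ k, w k j - M (M-1) a = M q - M q = 0`.
`exc_pairs`: `wt w B = ∑ e ∈ powersetCard 2 B, wt w e` (each ordered pair `(j, k)`, `j ≠ k`, of elements of `B` is in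
exactly one `e`; the diagonal is `0`) and `(powersetCard 2 B).card = |B| (|B|-1) / 2`, `wm a 2 = 2 a`. A convenient
proof: induction on `B` (`Finset.induction_on`, `powersetCard_succ_insert`), or the offDiag of `B` mapped to
`{j, k}`.
`sum_pairs`: `∑ B ∈ lev M m, ∑ e ∈ powersetCard 2 B, f e = (M-2).choose (m-2) * ∑ e ∈ lev M 2, f e`: for fixed `e` the
`B ⊇ e` with `m` elements are `e ∪ C`, `C ∈ powersetCard (m-2) eᶜ`, and `eᶜ.card = M - 2`.
`exc_sq_lev`: Cauchy-Schwarz (`sq_sum_le_card_mul_sum_sq`): `exc a w B ^ 2 ≤ m.choose 2 * ∑ e ∈ powersetCard 2 B, exc a w e ^ 2`.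
-/

open Finset

namespace Pool.Agent.H68.BE

open Pool.Agent.H78.Bass

variable {M : ℕ} {p q a : ℝ} {w : Fin M → Fin M → ℝ}

private theorem CnB_card {m : ℕ} (hm : 2 ≤ m) {e : Finset (Fin M)} (he : e.card = 2) :
    ((lev M m).filter (fun B => e ⊆ B)).card = (M - 2).choose (m - 2) := by
  have h1 : ((lev M m).filter (fun B => e ⊆ B)).card = (powersetCard (m - 2) eᶜ).card := by
    refine Finset.card_nbij' (fun B => B \ e) (fun C => C ∪ e) ?_ ?_ ?_ ?_
    · intro B hB
      have hB' := mem_filter.1 (mem_coe.1 hB)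
      have hc := mem_lev.1 hB'.1
      refine mem_coe.2 (mem_powersetCard.2 ⟨?_, ?_⟩)
      · intro x hx
        exact mem_compl.2 (mem_sdiff.1 hx).2
      · rw [card_sdiff_of_subset hB'.2, hc, he]
    · intro C hC
      have hC' := mem_powersetCard.1 (mem_coe.1 hC)
      refine mem_coe.2 (mem_filter.2 ⟨mem_lev.2 ?_, subset_union_right⟩)
      have hd : Disjoint C e := by
        rw [Finset.disjoint_left]
        intro x hx hxe
        exact (mem_compl.1 (hC'.1 hx)) hxe
      rw [card_union_of_disjoint hd, hC'.2, he]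
      omega
    · intro B hB
      have hB' := mem_filter.1 (mem_coe.1 hB)
      exact sdiff_union_of_subset hB'.2
    · intro C hC
      have hC' := mem_powersetCard.1 (mem_coe.1 hC)
      have hd : Disjoint C e := by
        rw [Finset.disjoint_left]
        intro x hx hxe
        exact (mem_compl.1 (hC'.1 hx)) hxe
      exact union_sdiff_cancel_right hd
  rw [h1, card_powersetCard, card_compl, he, Fintype.card_fin]

theorem sum_pairs {m : ℕ} (hm : 2 ≤ m) (f : Finset (Fin M) → ℝ) :
    ∑ B ∈ lev M m, ∑ e ∈ powersetCard 2 B, f e =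
      ((M - 2).choose (m - 2) : ℝ) * ∑ e ∈ lev M 2, f e := by
  have h1 : ∀ B ∈ lev M m, ∑ e ∈ powersetCard 2 B, f e =
      ∑ e ∈ lev M 2, if e ⊆ B then f e else 0 := by
    intro B _
    rw [← sum_filter]
    refine sum_congr ?_ fun _ _ => rfl
    ext e
    rw [mem_filter, mem_powersetCard, mem_lev]
    exact and_comm
  rw [sum_congr rfl h1, sum_comm, mul_sum]
  refine sum_congr rfl fun e he => ?_
  rw [← sum_filter, sum_const, CnB_card hm (mem_lev.1 he), nsmul_eq_mul]

private theorem CnB_two (hd : ∀ j, w j j = 0) {x y : Fin M} (hxy : x ≠ y) :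
    exc a w {x, y} = w x y + w y x - 2 * a := by
  have hc : ({x, y} : Finset (Fin M)).card = 2 := card_pair hxy
  unfold exc wt
  rw [hc, sum_pair hxy, sum_pair hxy, sum_pair hxy, hd, hd]
  push_cast
  ring

theorem exc_pairs (hd : ∀ j, w j j = 0) (B : Finset (Fin M)) :
    exc a w B = ∑ e ∈ powersetCard 2 B, exc a w e := by
  induction B using Finset.induction_on with
  | empty =>
    rw [powersetCard_eq_empty.2 (by simp), sum_empty]
    unfold exc wt
    simp
  | insert x B hx ih =>
    rw [powersetCard_succ_insert hx, sum_union, ← ih, sum_image, powersetCard_one, sum_map]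
    · have h1 : ∀ y ∈ B, exc a w (insert x ((⟨singleton, singleton_injective⟩ : Fin M ↪ Finset (Fin M)) y)) =
          w x y + w y x - 2 * a := by
        intro y hy
        have hxy : x ≠ y := by
          rintro rfl
          exact hx hy
        exact CnB_two hd hxy
      rw [sum_congr rfl h1, sum_sub_distrib, sum_add_distrib, sum_const, nsmul_eq_mul]
      unfold exc wt
      rw [card_insert_of_notMem hx, sum_insert hx, sum_insert hx, hd]
      have h2 : ∀ j ∈ B, ∑ k ∈ insert x B, w k j = w x j + ∑ k ∈ B, w k j := by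
        intro j _
        rw [sum_insert hx]
      rw [sum_congr rfl h2, sum_add_distrib]
      push_cast
      ring
    · intro s hs t ht hst
      have hs' : x ∉ s := fun h => hx ((mem_powersetCard.1 (mem_coe.1 hs)).1 h)
      have ht' : x ∉ t := fun h => hx ((mem_powersetCard.1 (mem_coe.1 ht)).1 h)
      have h3 := congrArg (fun u => u.erase x) hst
      simpa only [erase_insert hs', erase_insert ht'] using h3
    · rw [Finset.disjoint_left]
      intro s hs ht
      obtain ⟨t, _, rfl⟩ := mem_image.1 ht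
      exact hx ((mem_powersetCard.1 hs).1 (mem_insert_self x t))

theorem exc_lev (H : Hyp p q a w) (m : ℕ) : ∑ B ∈ lev M m, exc a w B = 0 := by
  rcases Nat.lt_or_ge m 2 with hm | hm
  · refine sum_eq_zero fun B hB => ?_
    rw [exc_pairs H.hw.diag B, powersetCard_eq_empty.2 (by rw [mem_lev.1 hB]; exact hm), sum_empty]
  · rw [sum_congr rfl (fun B _ => exc_pairs (a := a) H.hw.diag B), sum_pairs hm]
    have h1 : ∑ e ∈ lev M 2, exc a w e = 0 := by
      have h2 := exc_pairs (a := a) H.hw.diag (univ : Finset (Fin M))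
      unfold lev
      rw [← h2]
      unfold exc wt
      rw [sum_congr rfl (fun j _ => H.hw.sum j), sum_const, nsmul_eq_mul, card_univ, Fintype.card_fin,
        ← H.ha]
      ring
    rw [h1, mul_zero]

theorem exc_sq_lev (H : Hyp p q a w) {m : ℕ} (hm : 2 ≤ m) :
    ∑ B ∈ lev M m, exc a w B ^ 2 ≤
      (m.choose 2 : ℝ) * ((M - 2).choose (m - 2) : ℝ) * N2 a w := by
  have h1 : ∀ B ∈ lev M m, exc a w B ^ 2 ≤
      (m.choose 2 : ℝ) * ∑ e ∈ powersetCard 2 B, exc a w e ^ 2 := by
    intro B hB
    rw [exc_pairs H.hw.diag B]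
    refine le_trans (sq_sum_le_card_mul_sum_sq) ?_
    rw [card_powersetCard, mem_lev.1 hB]
  refine le_trans (sum_le_sum h1) ?_
  rw [← mul_sum, sum_pairs hm, ← mul_assoc]
  exact le_refl _

end Pool.Agent.H68.BE
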