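import Pool.Agent.H68.BE.Bas

set_option autoImplicit false

/-!
# Module MuA: the equation of the backward cluster

Model: `law_hasDeriv`, `law_zero`, `law_deriv` in `Pool/Agent/H78/Bass/Basic.lean`. `hasDerivAt_exp_smul_const`: the derivative
of `exp (s K) {j} B` is `∑ A, exp (s K) {j} A * Km A B` (`Matrix.mul_apply`), so the derivative of `mu` is
`∑ A, mu s A * Km A B`. By the definition of `Km` this is
`∑ A, ∑ k ∈ Aᶜ, mu s A * qin w k A * [B = insert k A] - (|B| (p+q) - wt w B) * mu s B`; `k ∉ A`, `B = insert k A` iff `k ∈ B` and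
`A = B.erase k`, so the double sum is `phi`. `mu_zero`: `exp 0 = 1`, `Matrix.one_apply`; the number of `j` with
`{j} = B` is one if `|B| = 1` and zero otherwise.
-/

open Finset

namespace Pool.Agent.H68.BE

open Pool.Agent.H78.Bass

variable {M : ℕ} {p q a : ℝ} {w : Fin M → Fin M → ℝ}

section gen

attribute [local instance] Matrix.linftyOpNormedRing Matrix.linftyOpNormedAlgebra

private theorem MuA_raw (p q : ℝ) (w : Fin M → Fin M → ℝ) (s : ℝ) (B : Finset (Fin M)) :
    HasDerivAt (fun r => mu p q w r B) (∑ A, mu p q w s A * Km p q w A B) s := by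
  have h := hasDerivAt_exp_smul_const (𝕂 := ℝ) (Km p q w) s
  have h2 : ∀ j : Fin M, HasDerivAt (fun r : ℝ => (NormedSpace.exp (r • Km p q w) :
      Matrix (Finset (Fin M)) (Finset (Fin M)) ℝ) {j} B)
      ((NormedSpace.exp (s • Km p q w) * Km p q w :
      Matrix (Finset (Fin M)) (Finset (Fin M)) ℝ) {j} B) s := by
    intro j
    exact ((hasDerivAt_pi.1 (hasDerivAt_pi.1 h {j})) B)
  have h3 : HasDerivAt (fun r : ℝ => ∑ j : Fin M, (NormedSpace.exp (r • Km p q w) :
      Matrix (Finset (Fin M)) (Finset (Fin M)) ℝ) {j} B)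
      (∑ j : Fin M, (NormedSpace.exp (s • Km p q w) * Km p q w :
      Matrix (Finset (Fin M)) (Finset (Fin M)) ℝ) {j} B) s :=
    HasDerivAt.fun_sum fun j _ => h2 j
  have h4 := h3.div_const (M : ℝ)
  have h5 : (∑ j : Fin M, (NormedSpace.exp (s • Km p q w) * Km p q w :
      Matrix (Finset (Fin M)) (Finset (Fin M)) ℝ) {j} B) / (M : ℝ) =
      ∑ A, mu p q w s A * Km p q w A B := by
    unfold mu
    simp_rw [Matrix.mul_apply]
    rw [Finset.sum_comm, Finset.sum_div]
    refine Finset.sum_congr rfl fun A _ => ?_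
    rw [← Finset.sum_mul]
    ring
  rw [h5] at h4
  exact h4

private theorem MuA_zero' (p q : ℝ) (w : Fin M → Fin M → ℝ) (B : Finset (Fin M)) :
    mu p q w 0 B = (∑ j : Fin M, if ({j} : Finset (Fin M)) = B then (1 : ℝ) else 0) / M := by
  unfold mu
  congr 1
  refine Finset.sum_congr rfl fun j _ => ?_
  rw [zero_smul, NormedSpace.exp_zero, Matrix.one_apply]

end gen

theorem mu_hasDeriv (p q : ℝ) (w : Fin M → Fin M → ℝ) (s : ℝ) (B : Finset (Fin M)) :
    HasDerivAt (fun r => mu p q w r B)
      (-((B.card : ℝ) * (p + q) - wt w B) * mu p q w s B + phi p q w s B) s := by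
  have h := MuA_raw p q w s B
  have h2 : ∑ A, mu p q w s A * Km p q w A B =
      -((B.card : ℝ) * (p + q) - wt w B) * mu p q w s B + phi p q w s B := by
    unfold Km
    simp_rw [mul_sub]
    rw [Finset.sum_sub_distrib]
    have e1 : ∑ A, mu p q w s A * (((A.card : ℝ) * (p + q) - wt w A) *
        (if B = A then (1 : ℝ) else 0)) = ((B.card : ℝ) * (p + q) - wt w B) * mu p q w s B := by
      rw [Finset.sum_eq_single B]
      · rw [if_pos rfl]
        ring
      · intro A _ hA
        rw [if_neg (Ne.symm hA)]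
        ring
      · intro hB
        exact absurd (Finset.mem_univ B) hB
    have e2 : ∑ A, mu p q w s A * (∑ k ∈ Aᶜ, qin w k A * (if B = insert k A then (1 : ℝ) else 0)) =
        phi p q w s B := by
      unfold phi
      simp_rw [Finset.mul_sum]
      rw [Finset.sum_sigma', ← Finset.sum_filter_add_sum_filter_not _
        (fun a : (_ : Finset (Fin M)) × Fin M => B = insert a.2 a.1)]
      have h3 : ∑ x ∈ (Finset.univ.sigma fun X : Finset (Fin M) => Xᶜ) with
          ¬ B = insert x.2 x.1, mu p q w s x.1 *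
          (qin w x.2 x.1 * (if B = insert x.2 x.1 then (1:ℝ) else 0)) = 0 := by
        refine Finset.sum_eq_zero fun a ha => ?_
        rw [Finset.mem_filter] at ha
        simp [ha.2]
      rw [h3, add_zero]
      symm
      refine Finset.sum_bij' (fun j _ => ⟨B.erase j, j⟩) (fun a _ => a.2) ?_ ?_ ?_ ?_ ?_
      · intro j hj
        simp [Finset.insert_erase hj]
      · rintro ⟨X, j⟩ ha
        simp only [Finset.mem_filter] at ha
        rw [ha.2]
        simp
      · intro j hj
        rfl
      · rintro ⟨X, j⟩ ha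
        simp only [Finset.mem_filter, Finset.mem_sigma, Finset.mem_compl] at ha
        rw [ha.2]
        simp [Finset.erase_insert ha.1.2]
      · intro j hj
        simp only [Finset.insert_erase hj, if_true, mul_one]
        ring
    rw [e1, e2]
    ring
  rw [h2] at h
  exact h

theorem mu_zero (p q : ℝ) (w : Fin M → Fin M → ℝ) (B : Finset (Fin M)) :
    mu p q w 0 B = if B.card = 1 then 1 / (M : ℝ) else 0 := by
  rw [MuA_zero']
  split_ifs with h
  · obtain ⟨a, rfl⟩ := Finset.card_eq_one.1 h
    congr 1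
    rw [Finset.sum_eq_single a]
    · rw [if_pos rfl]
    · intro j _ hj
      rw [if_neg]
      intro h2
      exact hj (Finset.singleton_injective h2)
    · intro ha
      exact absurd (Finset.mem_univ a) ha
  · rw [Finset.sum_eq_zero, zero_div]
    intro j _
    rw [if_neg]
    intro h2
    apply h
    rw [← h2, Finset.card_singleton]

end Pool.Agent.H68.BE
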