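import Pool.Agent.H68.BE.Bas

set_option autoImplicit false

/-!
# Module PpA: the law of the complete network

`pp_hasDeriv_one`: `Real.exp`. `pp_cont`: induction (`0`: constant; `1`: exp; `n + 2`: `intervalIntegral` of a continuous function is
continuous: `continuous_primitive` or `Differentiable.continuous`). `pp_hasDeriv`: fundamental theorem of calculus,
product rule (`m = n + 2`). `pp_zero`: `integral_same`. `pp_pos`: `m = 1` clear; `m = n + 2`: `compare_strict` with the equation:
`pp' = -lm pp + wm pp (m-1) > -lm pp` for `t > 0`. `pp_nonneg`: `s = 0` or `pp_pos`.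
-/

open Finset

namespace Pool.Agent.H68.BE

open Pool.Agent.H78.Bass

variable {M : ℕ} {p q a : ℝ} {w : Fin M → Fin M → ℝ}

theorem pp_one (p q a : ℝ) (M : ℕ) (s : ℝ) : pp p q a M 1 s = Real.exp (-(p + q) * s) / M := rfl

theorem pp_cont (p q a : ℝ) (M m : ℕ) : Continuous (pp p q a M m) := by
  induction m with
  | zero =>
    have h : pp p q a M 0 = fun _ => 0 := rfl
    rw [h]
    exact continuous_const
  | succ n ih =>
    rcases n with _ | k
    · have h : pp p q a M (0 + 1) = fun s => Real.exp (-(p + q) * s) / M := rfl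
      rw [h]
      fun_prop
    · have h : pp p q a M (k + 1 + 1) = fun s => Real.exp (-(lm p q a (k + 2)) * s) *
          ∫ r in (0 : ℝ)..s, Real.exp (lm p q a (k + 2) * r) *
            (wm a (k + 2) * pp p q a M (k + 1) r) := rfl
      rw [h]
      have hc : Continuous (fun r : ℝ => Real.exp (lm p q a (k + 2) * r) *
          (wm a (k + 2) * pp p q a M (k + 1) r)) := by
        refine Continuous.mul (by fun_prop) (continuous_const.mul ih)
      refine Continuous.mul (by fun_prop) ?_
      exact intervalIntegral.continuous_primitive (fun x y => hc.intervalIntegrable x y) 0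

theorem pp_hasDeriv_one (p q a : ℝ) (M : ℕ) (s : ℝ) :
    HasDerivAt (pp p q a M 1) (-(p + q) * pp p q a M 1 s) s := by
  have h : pp p q a M 1 = fun s => Real.exp (-(p + q) * s) / M := rfl
  rw [h]
  have h2 : HasDerivAt (fun s : ℝ => Real.exp (-(p + q) * s) / M)
      (Real.exp (-(p + q) * s) * (-(p + q) * 1) / M) s :=
    (((hasDerivAt_id s).const_mul (-(p + q))).exp).div_const (M : ℝ)
  refine h2.congr_deriv ?_
  ring

theorem pp_hasDeriv (p q a : ℝ) (M : ℕ) {m : ℕ} (hm : 2 ≤ m) (s : ℝ) :
    HasDerivAt (pp p q a M m)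
      (-(lm p q a m) * pp p q a M m s + wm a m * pp p q a M (m - 1) s) s := by
  obtain ⟨n, rfl⟩ : ∃ n, m = n + 2 := ⟨m - 2, by omega⟩
  have hm1 : n + 2 - 1 = n + 1 := by omega
  rw [hm1]
  have h : pp p q a M (n + 2) = fun s => Real.exp (-(lm p q a (n + 2)) * s) *
      ∫ r in (0 : ℝ)..s, Real.exp (lm p q a (n + 2) * r) *
        (wm a (n + 2) * pp p q a M (n + 1) r) := rfl
  have hc : Continuous (fun r : ℝ => Real.exp (lm p q a (n + 2) * r) *
      (wm a (n + 2) * pp p q a M (n + 1) r)) := by
    refine Continuous.mul (by fun_prop) (continuous_const.mul (pp_cont p q a M (n + 1)))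
  have h1 : HasDerivAt (fun u : ℝ => ∫ r in (0 : ℝ)..u, Real.exp (lm p q a (n + 2) * r) *
        (wm a (n + 2) * pp p q a M (n + 1) r))
      (Real.exp (lm p q a (n + 2) * s) * (wm a (n + 2) * pp p q a M (n + 1) s)) s :=
    intervalIntegral.integral_hasDerivAt_right (hc.intervalIntegrable _ _)
      (hc.stronglyMeasurableAtFilter _ _) hc.continuousAt
  have h2 : HasDerivAt (fun u : ℝ => Real.exp (-(lm p q a (n + 2)) * u))
      (Real.exp (-(lm p q a (n + 2)) * s) * (-(lm p q a (n + 2)) * 1)) s :=
    ((hasDerivAt_id s).const_mul (-(lm p q a (n + 2)))).exp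
  rw [h]
  refine (h2.mul h1).congr_deriv ?_
  have e : Real.exp (-(lm p q a (n + 2)) * s) * Real.exp (lm p q a (n + 2) * s) = 1 := by
    rw [← Real.exp_add]
    simp
  have e2 : Real.exp (-(lm p q a (n + 2)) * s) * (Real.exp (lm p q a (n + 2) * s) *
      (wm a (n + 2) * pp p q a M (n + 1) s)) = wm a (n + 2) * pp p q a M (n + 1) s := by
    rw [← mul_assoc, e, one_mul]
  rw [e2]
  ring

theorem pp_zero (p q a : ℝ) (M : ℕ) {m : ℕ} (hm : 2 ≤ m) : pp p q a M m 0 = 0 := by
  obtain ⟨n, rfl⟩ : ∃ n, m = n + 2 := ⟨m - 2, by omega⟩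
  have h : pp p q a M (n + 2) 0 = Real.exp (-(lm p q a (n + 2)) * 0) *
      ∫ r in (0 : ℝ)..0, Real.exp (lm p q a (n + 2) * r) *
        (wm a (n + 2) * pp p q a M (n + 1) r) := rfl
  rw [h, intervalIntegral.integral_same, mul_zero]

theorem pp_pos (H : Hyp p q a w) {m : ℕ} (hm : 1 ≤ m) {s : ℝ} (hs : 0 < s) :
    0 < pp p q a M m s := by
  induction m, hm using Nat.le_induction generalizing s with
  | base =>
    rw [pp_one]
    have h := H.hM
    have h' : (0 : ℝ) < (M : ℝ) := by
      have : 0 < M := by omega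
      exact_mod_cast this
    have e := Real.exp_pos (-(p + q) * s)
    positivity
  | succ n hn ih =>
    have hm2 : 2 ≤ n + 1 := by omega
    refine compare_strict (f := pp p q a M (n + 1))
      (f' := fun t => -(lm p q a (n + 1)) * pp p q a M (n + 1) t +
        wm a (n + 1) * pp p q a M (n + 1 - 1) t) (c := lm p q a (n + 1))
      (fun t => pp_hasDeriv p q a M hm2 t) (fun t ht => ?_) ?_ hs
    · have h1 := ih ht
      have h2 := H.wm_pos hm2
      have h3 : n + 1 - 1 = n := by omega
      simp only [h3]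
      have h4 : 0 < wm a (n + 1) * pp p q a M n t := mul_pos h2 h1
      linarith
    · rw [pp_zero p q a M hm2]

theorem pp_nonneg (H : Hyp p q a w) {m : ℕ} (hm : 1 ≤ m) {s : ℝ} (hs : 0 ≤ s) :
    0 ≤ pp p q a M m s := by
  rcases hs.eq_or_lt with h | h
  · rw [← h]
    rcases Nat.lt_or_ge m 2 with h1 | h1
    · have h2 : m = 1 := by omega
      subst h2
      rw [pp_one]
      positivity
    · rw [pp_zero p q a M h1]
  · exact (pp_pos H hm h).le

end Pool.Agent.H68.BE
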