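import Pool.Agent.H68.BE.Bas
import Pool.Agent.H68.BE.PpA

set_option autoImplicit false

/-!
# Module PpB: bounds for the law of the complete network

`pp_mono`: induction on `m ≥ 2`. `D = wm m pp (m-1) - (lm m - (p+q)) pp m`. By the equation of `pp m` and
`(pp (m-1))' ≥ -(p+q) pp (m-1)` (for `m = 2` equality, `pp_hasDeriv_one`; for `m ≥ 3` this is `pp_mono` for `m - 1`),
`D' ≥ -(p+q) wm pp (m-1) - (lm - (p+q)) (-lm pp m + wm pp (m-1)) = -lm D`, and `D 0 ≥ 0` (`pp m 0 = 0`, `pp (m-1) 0 ≥ 0`): `compare`.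
`pp_le`: `lm m - (p+q) ≥ (m-1) p - q > 0` (`H.lm_sub`, `H.mp_pos`).
`pp_four`: `pp m ≤ wm/((m-1)p-q) pp (m-1)`, so the left side is `≤ 4 wm^2/(m p ((m-1)p-q)) (pp (m-1)/wm)`, `wm ≤ m q` (`H.wm_le`),
`q ≤ p/10`, `(m-1)p-q ≥ (m-1) (19/20) p`: `4 m q^2/(p (m-1) (19/20) p) ≤ 4 * (3/2) * (1/100) * (20/19) ≤ 2/25`.
`pp_ratio`: induction on `m ≥ 3`; `m = 3`: `(2!)/2 = 1`. Step `m -> m+1`: `pp m ≤ wm m/((m-1)p-q) pp (m-1)`, and
`wm m/((m-1)p-q) ≤ m (m-1) a/((m-1)(p-q/2)) = m a/(p-q/2)` because `m - 1 ≥ 2`.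
-/

open Finset

namespace Pool.Agent.H68.BE

open Pool.Agent.H78.Bass

variable {M : ℕ} {p q a : ℝ} {w : Fin M → Fin M → ℝ}

/-- the derivative of `pp m` is at least `-(p+q) pp m`, if `pp_mono` is known below `m` -/
private theorem PpB_step (H : Hyp p q a w) {m : ℕ} (h2 : 2 ≤ m)
    (d : ℝ → ℝ) (hd : ∀ t, HasDerivAt (pp p q a M (m - 1)) (d t) t)
    (hge : ∀ t, 0 ≤ t → -(p + q) * pp p q a M (m - 1) t ≤ d t) {s : ℝ} (hs : 0 ≤ s) :
    (lm p q a m - (p + q)) * pp p q a M m s ≤ wm a m * pp p q a M (m - 1) s := by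
  have hw : 0 < wm a m := H.wm_pos h2
  have hf : ∀ t, HasDerivAt
      (fun t => wm a m * pp p q a M (m - 1) t - (lm p q a m - (p + q)) * pp p q a M m t)
      (wm a m * d t - (lm p q a m - (p + q)) *
        (-(lm p q a m) * pp p q a M m t + wm a m * pp p q a M (m - 1) t)) t := by
    intro t
    exact ((hd t).const_mul _).sub ((pp_hasDeriv p q a M h2 t).const_mul _)
  have h0 : 0 ≤ wm a m * pp p q a M (m - 1) 0 - (lm p q a m - (p + q)) * pp p q a M m 0 := by
    rw [pp_zero p q a M h2, mul_zero, sub_zero]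
    exact mul_nonneg hw.le (pp_nonneg H (by omega) le_rfl)
  have key := compare (c := lm p q a m) hf (fun t ht => by
    have h1 := mul_le_mul_of_nonneg_left (hge t ht) hw.le
    linarith) h0 hs
  linarith

theorem pp_mono (H : Hyp p q a w) {m : ℕ} (h2 : 2 ≤ m) (hm : m ≤ M) {s : ℝ} (hs : 0 ≤ s) :
    (lm p q a m - (p + q)) * pp p q a M m s ≤ wm a m * pp p q a M (m - 1) s := by
  induction m, h2 using Nat.le_induction generalizing s with
  | base =>
    refine PpB_step H le_rfl (fun t => -(p + q) * pp p q a M 1 t)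
      (fun t => pp_hasDeriv_one p q a M t) (fun t _ => le_rfl) hs
  | succ m h2 ih =>
    refine PpB_step H (m := m + 1) (by omega) (fun t => -(lm p q a m) * pp p q a M m t +
      wm a m * pp p q a M (m - 1) t) (fun t => pp_hasDeriv p q a M h2 t) ?_ hs
    intro t ht
    have h1 := ih (by omega) ht
    have h3 : m + 1 - 1 = m := by omega
    rw [h3]
    linarith

theorem Hyp.ma_le (H : Hyp p q a w) {m : ℕ} (hm : m ≤ M) : ((m : ℝ) - 1) * a ≤ q := by
  have h1 : (m : ℝ) ≤ (M : ℝ) := by exact_mod_cast hm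
  rw [← H.ha]
  exact mul_le_mul_of_nonneg_right (by linarith) H.a_pos.le

theorem Hyp.a_le (H : Hyp p q a w) : 2 * a ≤ q := by
  have h1 := H.M1
  rw [← H.ha]
  exact mul_le_mul_of_nonneg_right h1 H.a_pos.le

theorem exp_le_E {x : ℝ} (hx : x ≤ 1 / 20) : Real.exp x ≤ 20 / 19 := by
  have h1 := Real.add_one_le_exp (-(1 / 20 : ℝ))
  have h2 : Real.exp x ≤ Real.exp (1 / 20) := Real.exp_le_exp.2 hx
  have h3 : Real.exp (1 / 20) * Real.exp (-(1 / 20 : ℝ)) = 1 := by
    rw [← Real.exp_add]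
    norm_num
  have h4 := Real.exp_pos (1 / 20 : ℝ)
  nlinarith

private theorem PpB_le_step (H : Hyp p q a w) {m : ℕ} (h2 : 2 ≤ m) (hm : m ≤ M)
    (d : ℝ → ℝ) (hd : ∀ t, HasDerivAt (pp p q a M (m - 1)) (d t) t)
    (hge : ∀ t, 0 ≤ t → (m : ℝ) * ((m : ℝ) - 2) * a * pp p q a M (m - 1) t -
      (m : ℝ) * a * t * Real.exp (q * t) * (lm p q a (m - 1) * pp p q a M (m - 1) t) ≤
      (m : ℝ) * a * t * Real.exp (q * t) * d t) {s : ℝ} (hs : 0 ≤ s) :
    pp p q a M m s ≤ (m : ℝ) * a * s * Real.exp (q * s) * pp p q a M (m - 1) s := by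
  have ha := H.a_pos
  have hq := H.hq
  have hp := H.hp
  have hZ : ∀ t, HasDerivAt (fun t : ℝ => (m : ℝ) * a * t * Real.exp (q * t))
      ((m : ℝ) * a * Real.exp (q * t) + (m : ℝ) * a * t * Real.exp (q * t) * q) t := by
    intro t
    have h1 : HasDerivAt (fun t : ℝ => Real.exp (q * t)) (Real.exp (q * t) * q) t := by
      simpa using ((hasDerivAt_id t).const_mul q).exp
    have h3 : HasDerivAt (fun t : ℝ => (m : ℝ) * a * t) ((m : ℝ) * a) t := by
      simpa using (hasDerivAt_id t).const_mul ((m : ℝ) * a)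
    refine (h3.mul h1).congr_deriv ?_
    ring
  have hf : ∀ t, HasDerivAt (fun t => (m : ℝ) * a * t * Real.exp (q * t) *
      pp p q a M (m - 1) t - pp p q a M m t)
      (((m : ℝ) * a * Real.exp (q * t) + (m : ℝ) * a * t * Real.exp (q * t) * q) *
        pp p q a M (m - 1) t + (m : ℝ) * a * t * Real.exp (q * t) * d t -
        (-(lm p q a m) * pp p q a M m t + wm a m * pp p q a M (m - 1) t)) t := by
    intro t
    exact ((hZ t).mul (hd t)).sub (pp_hasDeriv p q a M h2 t)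
  have key := compare (c := lm p q a m) hf (fun t ht => ?_) ?_ hs
  · linarith
  · have h1 := hge t ht
    have hP := pp_nonneg H (m := m - 1) (by omega) ht
    have hE : 1 ≤ Real.exp (q * t) := Real.one_le_exp (by positivity)
    have hma := H.ma_le hm
    have hm2 : (2 : ℝ) ≤ (m : ℝ) := by exact_mod_cast h2
    have hlm : lm p q a m - lm p q a (m - 1) = p + q - 2 * ((m : ℝ) - 1) * a := by
      unfold lm wm
      have h4 : ((m - 1 : ℕ) : ℝ) = (m : ℝ) - 1 := by
        rw [Nat.cast_sub (by omega)]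
        norm_num
      rw [h4]
      ring
    have hw : wm a m = (m : ℝ) * ((m : ℝ) - 1) * a := rfl
    have hZ0 : 0 ≤ (m : ℝ) * a * t * Real.exp (q * t) := by positivity
    have h5 : 0 ≤ (m : ℝ) * a * t * Real.exp (q * t) *
        (p + 2 * q - 2 * ((m : ℝ) - 1) * a) * pp p q a M (m - 1) t := by
      refine mul_nonneg (mul_nonneg hZ0 ?_) hP
      linarith
    have h6 : 0 ≤ (m : ℝ) * a * (Real.exp (q * t) - 1) * pp p q a M (m - 1) t := by
      refine mul_nonneg (mul_nonneg (by positivity) (by linarith)) hP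
    have h7 : lm p q a m = lm p q a (m - 1) + (p + q - 2 * ((m : ℝ) - 1) * a) := by linarith
    rw [h7, hw]
    nlinarith [h1, h5, h6]
  · rw [pp_zero p q a M h2]
    simp

theorem pp_le (H : Hyp p q a w) {m : ℕ} (h2 : 2 ≤ m) (hm : m ≤ M) {s : ℝ} (hs : 0 ≤ s) :
    pp p q a M m s ≤ (m : ℝ) * a * s * Real.exp (q * s) * pp p q a M (m - 1) s := by
  have ha := H.a_pos
  induction m, h2 using Nat.le_induction generalizing s with
  | base =>
    refine PpB_le_step H le_rfl hm (fun t => -(p + q) * pp p q a M 1 t)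
      (fun t => pp_hasDeriv_one p q a M t) (fun t _ => ?_) hs
    have : lm p q a (2 - 1) = p + q := by
      unfold lm wm
      norm_num
    rw [this]
    push_cast
    apply le_of_eq
    ring
  | succ m h2 ih =>
    refine PpB_le_step H (m := m + 1) (by omega) hm (fun t => -(lm p q a m) * pp p q a M m t +
      wm a m * pp p q a M (m - 1) t) (fun t => pp_hasDeriv p q a M h2 t) ?_ hs
    intro t ht
    have h1 := ih (by omega) ht
    have h3 : m + 1 - 1 = m := by omega
    have hm2 : (2 : ℝ) ≤ (m : ℝ) := by exact_mod_cast h2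
    rw [h3]
    have h4 : 0 ≤ ((m : ℝ) + 1) * ((m : ℝ) - 1) * a := by
      have : 0 ≤ (m : ℝ) - 1 := by linarith
      positivity
    have h5 := mul_le_mul_of_nonneg_left h1 h4
    have hw : wm a m = (m : ℝ) * ((m : ℝ) - 1) * a := rfl
    rw [hw]
    push_cast
    have e1 : ((m : ℝ) + 1) * ((m : ℝ) + 1 - 2) * a * pp p q a M m t =
        ((m : ℝ) + 1) * ((m : ℝ) - 1) * a * pp p q a M m t := by ring
    rw [e1]
    have e2 : ((m : ℝ) + 1) * a * t * Real.exp (q * t) *
        (-(lm p q a m) * pp p q a M m t + (m : ℝ) * ((m : ℝ) - 1) * a * pp p q a M (m - 1) t) =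
        -(((m : ℝ) + 1) * a * t * Real.exp (q * t) * (lm p q a m * pp p q a M m t)) +
        ((m : ℝ) + 1) * ((m : ℝ) - 1) * a *
          ((m : ℝ) * a * t * Real.exp (q * t) * pp p q a M (m - 1) t) := by ring
    rw [e2]
    linarith

theorem pp_four (H : Hyp p q a w) {m : ℕ} (h2 : 2 ≤ m) (hm : m ≤ M) {s : ℝ} (hs : 0 ≤ s)
    (hqs : q * s ≤ 1 / 20) :
    pp p q a M m s / ((m : ℝ) * q) ≤ 2 / 25 * (pp p q a M (m - 1) s / wm a m) := by
  have hw := H.wm_pos h2
  have hwl := H.wm_le hm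
  have hq := H.hq
  have ha := H.a_pos
  have hm2 : (2 : ℝ) ≤ (m : ℝ) := by exact_mod_cast h2
  have hmq : 0 < (m : ℝ) * q := by positivity
  have h5 : 0 ≤ pp p q a M (m - 1) s := pp_nonneg H (by omega) hs
  have h6 := pp_le H h2 hm hs
  have hE := exp_le_E hqs
  have hE0 := Real.exp_pos (q * s)
  have hma := H.ma_le hm
  have hal := H.a_le
  have hma2 : (m : ℝ) * a ≤ 3 / 2 * q := by linarith
  have h7 : (m : ℝ) * a * s * Real.exp (q * s) ≤ 2 / 25 := by
    have k1 : (m : ℝ) * a * s ≤ 3 / 2 * q * s := mul_le_mul_of_nonneg_right hma2 hs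
    have k2 : (m : ℝ) * a * s ≤ 3 / 40 := by linarith
    have k3 : 0 ≤ (m : ℝ) * a * s := by positivity
    calc (m : ℝ) * a * s * Real.exp (q * s) ≤ 3 / 40 * (20 / 19) :=
          mul_le_mul k2 hE hE0.le (by norm_num)
      _ ≤ 2 / 25 := by norm_num
  have h8 : pp p q a M m s ≤ 2 / 25 * pp p q a M (m - 1) s :=
    h6.trans (mul_le_mul_of_nonneg_right h7 h5)
  rw [div_le_iff₀ hmq]
  have h9 : pp p q a M (m - 1) s ≤ pp p q a M (m - 1) s / wm a m * ((m : ℝ) * q) := by
    rw [div_mul_eq_mul_div, le_div_iff₀ hw]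
    exact mul_le_mul_of_nonneg_left hwl h5
  linarith

theorem pp_ratio (H : Hyp p q a w) {m : ℕ} (h3 : 3 ≤ m) (hm : m ≤ M) {s : ℝ} (hs : 0 ≤ s) :
    pp p q a M (m - 1) s ≤
      (a * s * Real.exp (q * s)) ^ (m - 3) * (((m - 1).factorial : ℝ) / 2) * pp p q a M 2 s := by
  have hq := H.hq
  have ha := H.a_pos
  induction m, h3 using Nat.le_induction with
  | base => simp
  | succ m h3 ih =>
    have ih' := ih (by omega)
    have h2 : 2 ≤ m := by omega
    have hm3 : (3 : ℝ) ≤ (m : ℝ) := by exact_mod_cast h3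
    have h6 := pp_le H h2 (by omega : m ≤ M) hs
    have e1 : m + 1 - 1 = m := by omega
    have e2 : m + 1 - 3 = (m - 3) + 1 := by omega
    have e3 : (m.factorial : ℝ) = (m : ℝ) * ((m - 1).factorial : ℝ) := by
      rw [← Nat.mul_factorial_pred (by omega : m ≠ 0)]
      push_cast
      ring
    rw [e1, e2, e3]
    calc pp p q a M m s
        ≤ (m : ℝ) * a * s * Real.exp (q * s) * pp p q a M (m - 1) s := h6
      _ ≤ (m : ℝ) * a * s * Real.exp (q * s) *
          ((a * s * Real.exp (q * s)) ^ (m - 3) * (((m - 1).factorial : ℝ) / 2) *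
            pp p q a M 2 s) := by
          apply mul_le_mul_of_nonneg_left ih'
          positivity
      _ = _ := by
          rw [pow_succ]
          ring

end Pool.Agent.H68.BE
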