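import Pool.Agent.H68.BE.Bas

set_option autoImplicit false

/-!
# Module PsA: the function x log x - x + 1

`ps_nonneg`: `log x ≥ 1 - 1/x` (`Real.one_sub_inv_le_log_of_pos`), `x = 0`: `ps 0 = 1`. `ps_le_sq`: `log x ≤ x - 1`.
`ps_young`: `c (x-1) ≤ ps x + (exp c - 1 - c)`: the difference is `exp c * ps (x / exp c)` (for `x > 0`
`log (x/exp c) = log x - c`). `ps_fench`: `ps y - (y log x - x + 1) = x * ps (y/x)`.
`ps_two`: for `t > 0`, `z ≥ 0`: `2 t ps z + (t-1)^2 - ps (t z) = t^2 ps (z/t)` (expand, `log (t z) = log t + log z` if `z > 0`; the case `z = 0`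
separately).
`ps_tz`: `t ps z = ps (t z) - t z log t + t - 1`.
-/

open Finset

namespace Pool.Agent.H68.BE

open Pool.Agent.H78.Bass

variable {M : ℕ} {p q a : ℝ} {w : Fin M → Fin M → ℝ}

theorem ps_zero : ps 0 = 1 := by
  simp [ps]

theorem ps_one : ps 1 = 0 := by
  simp [ps]

theorem ps_nonneg {x : ℝ} (hx : 0 ≤ x) : 0 ≤ ps x := by
  rcases hx.eq_or_lt with h | h
  · rw [← h, ps_zero]
    exact zero_le_one
  · have h1 := Real.one_sub_inv_le_log_of_pos h
    have h2 : x * (1 - x⁻¹) ≤ x * Real.log x := mul_le_mul_of_nonneg_left h1 hx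
    have h3 : x * (1 - x⁻¹) = x - 1 := by
      rw [mul_sub, mul_one, mul_inv_cancel₀ h.ne']
    unfold ps
    linarith

theorem ps_le_sq {x : ℝ} (hx : 0 ≤ x) : ps x ≤ (x - 1) ^ 2 := by
  rcases hx.eq_or_lt with h | h
  · rw [← h, ps_zero]
    norm_num
  · have h1 := Real.log_le_sub_one_of_pos h
    have h2 : x * Real.log x ≤ x * (x - 1) := mul_le_mul_of_nonneg_left h1 hx
    unfold ps
    nlinarith

theorem ps_young {x : ℝ} (hx : 0 ≤ x) (c : ℝ) : c * (x - 1) ≤ ps x + (Real.exp c - 1 - c) := by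
  have he := Real.exp_pos c
  rcases hx.eq_or_lt with h | h
  · rw [← h, ps_zero]
    linarith
  · have h1 : 0 ≤ Real.exp c * ps (x / Real.exp c) :=
      mul_nonneg he.le (ps_nonneg (div_nonneg hx he.le))
    have h2 : Real.exp c * ps (x / Real.exp c) = x * Real.log x - c * x - x + Real.exp c := by
      unfold ps
      rw [Real.log_div h.ne' he.ne', Real.log_exp]
      field_simp
    unfold ps
    linarith

theorem ps_fench {x y : ℝ} (hx : 0 < x) (hy : 0 ≤ y) : y * Real.log x - x + 1 ≤ ps y := by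
  rcases hy.eq_or_lt with h | h
  · rw [← h, ps_zero]
    linarith
  · have h1 : 0 ≤ x * ps (y / x) := mul_nonneg hx.le (ps_nonneg (div_nonneg hy hx.le))
    have h2 : x * ps (y / x) = y * Real.log y - y * Real.log x - y + x := by
      unfold ps
      rw [Real.log_div h.ne' hx.ne']
      field_simp
    unfold ps
    linarith

theorem ps_two {t z : ℝ} (ht : 0 < t) (hz : 0 ≤ z) : ps (t * z) ≤ 2 * t * ps z + (t - 1) ^ 2 := by
  rcases hz.eq_or_lt with h | h
  · rw [← h, mul_zero, ps_zero]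
    nlinarith [sq_nonneg t]
  · have h1 : 0 ≤ t ^ 2 * ps (z / t) :=
      mul_nonneg (sq_nonneg t) (ps_nonneg (div_nonneg hz ht.le))
    have h2 : t ^ 2 * ps (z / t) = t * z * Real.log z - t * z * Real.log t - t * z + t ^ 2 := by
      unfold ps
      rw [Real.log_div h.ne' ht.ne']
      field_simp
    have h3 : Real.log (t * z) = Real.log t + Real.log z := Real.log_mul ht.ne' h.ne'
    unfold ps
    rw [h3]
    nlinarith

theorem ps_tz {t z : ℝ} (ht : 0 < t) (hz : 0 ≤ z) :
    t * ps z = ps (t * z) - t * z * Real.log t + t - 1 := by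
  rcases hz.eq_or_lt with h | h
  · rw [← h, mul_zero, ps_zero]
    ring
  · unfold ps
    rw [Real.log_mul ht.ne' h.ne']
    ring

end Pool.Agent.H68.BE
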