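import Pool.Agent.H68.BE.Bas
import Pool.Agent.H68.BE.PsA

set_option autoImplicit false

/-!
# Module PsB: convexity inequalities for finite sums

`ps_jensen`: `ps` is convex on `[0, ∞)` (`Real.convexOn_mul_log` plus an affine function), `ConvexOn.map_centerMass_le` or `map_sum_le` with the weights
`c k / C`.
`chain_real`: `C = ∑ c k`, `z = (∑ c k x k)/C`, `t = C/u`, `y = t z`. If `C = 0` all `c k = 0` and the claim is `0 ≤ (0 - u)(0 - 1)`. If `C > 0`: by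
`ps_jensen` `∑ c k ps (x k) ≥ C ps z = u t ps z = u (ps y - y log t + t - 1)` (`ps_tz`), and `(C - u)(y - 1) = u (t - 1)(y - 1)`. The sum is
`≥ u (ps y + y (t - 1 - log t)) ≥ 0` (`Real.log_le_sub_one_of_pos`).
`src_real`: if `C = 0` then the left side is `u ps 0 = u` and the right side is `u^2/u`. If `C > 0`: `u ps (t z) ≤ 2 u t ps z + u (t-1)^2` (`ps_two`),
`u t = C`, `C ps z ≤ ∑ c k ps (x k)`, `u (t-1)^2 = (C-u)^2/u`.
-/

open Finset

namespace Pool.Agent.H68.BE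

open Pool.Agent.H78.Bass

variable {M : ℕ} {p q a : ℝ} {w : Fin M → Fin M → ℝ}

private theorem psB_convex : ConvexOn ℝ (Set.Ici (0 : ℝ)) ps := by
  refine ⟨convex_Ici 0, ?_⟩
  intro x hx y hy a b ha hb hab
  have h := Real.convexOn_mul_log.2 hx hy ha hb hab
  simp only [smul_eq_mul] at h ⊢
  unfold ps
  have h1 : a * (x * Real.log x - x + 1) + b * (y * Real.log y - y + 1) =
      a * (x * Real.log x) + b * (y * Real.log y) - (a * x + b * y) + (a + b) := by ring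
  rw [h1, hab]
  linarith

theorem ps_jensen {ι : Type*} (S : Finset ι) (c x : ι → ℝ) (hc : ∀ k ∈ S, 0 ≤ c k)
    (hx : ∀ k ∈ S, 0 ≤ x k) (hC : 0 < ∑ k ∈ S, c k) :
    (∑ k ∈ S, c k) * ps ((∑ k ∈ S, c k * x k) / ∑ k ∈ S, c k) ≤ ∑ k ∈ S, c k * ps (x k) := by
  have h := psB_convex.map_centerMass_le (t := S) (w := c) (p := x) hc hC (fun i hi => hx i hi)
  unfold Finset.centerMass at h
  simp only [smul_eq_mul, Function.comp_apply] at h
  have h1 : (∑ k ∈ S, c k)⁻¹ * ∑ k ∈ S, c k * x k = (∑ k ∈ S, c k * x k) / ∑ k ∈ S, c k := by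
    rw [div_eq_inv_mul]
  rw [h1] at h
  have h2 := mul_le_mul_of_nonneg_left h hC.le
  rw [← mul_assoc, mul_inv_cancel₀ hC.ne', one_mul] at h2
  exact h2

/-- the mean -/
private theorem psB_mean {ι : Type*} (S : Finset ι) (c x : ι → ℝ) (hc : ∀ k ∈ S, 0 ≤ c k)
    (hx : ∀ k ∈ S, 0 ≤ x k) (hC : 0 < ∑ k ∈ S, c k) {u : ℝ} (hu : 0 < u) :
    ∃ t z : ℝ, 0 < t ∧ 0 ≤ z ∧ (∑ k ∈ S, c k) = u * t ∧
      (∑ k ∈ S, c k * x k) / u = t * z ∧
      (∑ k ∈ S, c k) * ps z ≤ ∑ k ∈ S, c k * ps (x k) := by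
  refine ⟨(∑ k ∈ S, c k) / u, (∑ k ∈ S, c k * x k) / ∑ k ∈ S, c k, div_pos hC hu, ?_, ?_, ?_,
    ps_jensen S c x hc hx hC⟩
  · exact div_nonneg (Finset.sum_nonneg fun k hk => mul_nonneg (hc k hk) (hx k hk)) hC.le
  · field_simp
  · have h := hC.ne'
    field_simp

private theorem psB_zero {ι : Type*} (S : Finset ι) (c x : ι → ℝ) (hc : ∀ k ∈ S, 0 ≤ c k)
    (hC : ∑ k ∈ S, c k = 0) : ∑ k ∈ S, c k * x k = 0 := by
  have h := (Finset.sum_eq_zero_iff_of_nonneg hc).1 hC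
  exact Finset.sum_eq_zero fun k hk => by rw [h k hk, zero_mul]

theorem chain_real {ι : Type*} (S : Finset ι) (c x : ι → ℝ) (hc : ∀ k ∈ S, 0 ≤ c k)
    (hx : ∀ k ∈ S, 0 ≤ x k) {u : ℝ} (hu : 0 < u) :
    0 ≤ ((∑ k ∈ S, c k) - u) * ((∑ k ∈ S, c k * x k) / u - 1) + ∑ k ∈ S, c k * ps (x k) := by
  rcases (Finset.sum_nonneg hc).eq_or_lt with hC | hC
  · have h1 := psB_zero S c x hc hC.symm
    have h2 := psB_zero S c (fun k => ps (x k)) hc hC.symm
    rw [← hC, h1, h2]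
    simp only [zero_div, zero_sub, add_zero]
    nlinarith
  · obtain ⟨t, z, ht, hz, h1, h2, h3⟩ := psB_mean S c x hc hx hC hu
    have h4 := ps_tz ht hz
    have h5 : 0 ≤ ps (t * z) := ps_nonneg (mul_nonneg ht.le hz)
    have h6 := Real.log_le_sub_one_of_pos ht
    have h7 : 0 ≤ t * z * (t - 1 - Real.log t) :=
      mul_nonneg (mul_nonneg ht.le hz) (by linarith)
    have h8 : 0 ≤ u * (ps (t * z) + t * z * (t - 1 - Real.log t)) :=
      mul_nonneg hu.le (by linarith)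
    have h9 : (u * t - u) * (t * z - 1) + u * t * ps z =
        u * (ps (t * z) + t * z * (t - 1 - Real.log t)) := by
      rw [mul_assoc u t (ps z), h4]
      ring
    rw [h2]
    rw [h1] at h3 ⊢
    linarith

theorem src_real {ι : Type*} (S : Finset ι) (c x : ι → ℝ) (hc : ∀ k ∈ S, 0 ≤ c k)
    (hx : ∀ k ∈ S, 0 ≤ x k) {u : ℝ} (hu : 0 < u) :
    u * ps ((∑ k ∈ S, c k * x k) / u) ≤
      2 * ∑ k ∈ S, c k * ps (x k) + ((∑ k ∈ S, c k) - u) ^ 2 / u := by
  rcases (Finset.sum_nonneg hc).eq_or_lt with hC | hC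
  · have h1 := psB_zero S c x hc hC.symm
    have h2 := psB_zero S c (fun k => ps (x k)) hc hC.symm
    rw [← hC, h1, h2, zero_div, ps_zero]
    have h3 : (0 - u) ^ 2 / u = u := by
      field_simp
      ring
    rw [h3]
    linarith
  · obtain ⟨t, z, ht, hz, h1, h2, h3⟩ := psB_mean S c x hc hx hC hu
    have h4 := mul_le_mul_of_nonneg_left (ps_two ht hz) hu.le
    have h5 : (u * t - u) ^ 2 / u = u * (t - 1) ^ 2 := by
      field_simp
    rw [h2]
    rw [h1] at h3 ⊢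
    rw [h5]
    have h6 : u * (2 * t * ps z + (t - 1) ^ 2) = 2 * (u * t * ps z) + u * (t - 1) ^ 2 := by ring
    linarith

end Pool.Agent.H68.BE
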