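import Mathlib

set_option autoImplicit false

/-!
# Comparison on a bounded interval
-/

namespace Pool.Agent.H68.BE

theorem compareT {f f' : ℝ → ℝ} {c T : ℝ} (hf : ∀ t, HasDerivAt f (f' t) t)
    (h : ∀ t, 0 ≤ t → t ≤ T → -c * f t ≤ f' t) (h0 : 0 ≤ f 0) {t : ℝ} (ht : 0 ≤ t)
    (htT : t ≤ T) : 0 ≤ f t := by
  have hg : ∀ s, HasDerivAt (fun s => f s * Real.exp (c * s))
      (f' s * Real.exp (c * s) + f s * (Real.exp (c * s) * (c * 1))) s := by
    intro s
    exact (hf s).mul (((hasDerivAt_id s).const_mul c).exp)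
  have hm : MonotoneOn (fun s => f s * Real.exp (c * s)) (Set.Icc 0 T) := by
    refine monotoneOn_of_deriv_nonneg (convex_Icc 0 T)
      (fun s _ => (hg s).continuousAt.continuousWithinAt)
      (fun s _ => (hg s).differentiableAt.differentiableWithinAt) ?_
    intro s hs
    rw [interior_Icc] at hs
    rw [(hg s).deriv]
    have := h s hs.1.le hs.2.le
    have e := Real.exp_pos (c * s)
    nlinarith
  have := hm (Set.mem_Icc.2 ⟨le_rfl, ht.trans htT⟩) (Set.mem_Icc.2 ⟨ht, htT⟩) ht
  simp only [mul_zero, Real.exp_zero, mul_one] at this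
  have e := Real.exp_pos (c * t)
  by_contra hn
  push Not at hn
  nlinarith

theorem compare0T {f f' : ℝ → ℝ} {c T : ℝ} (hf : ∀ t, 0 < t → HasDerivAt f (f' t) t)
    (h : ∀ t, 0 < t → t ≤ T → -c * f t ≤ f' t)
    (h0 : Filter.Tendsto f (nhdsWithin 0 (Set.Ioi 0)) (nhds 0)) {t : ℝ} (ht : 0 < t)
    (htT : t ≤ T) : 0 ≤ f t := by
  have hg : ∀ s, 0 < s → HasDerivAt (fun r => f r * Real.exp (c * r))
      (f' s * Real.exp (c * s) + f s * (Real.exp (c * s) * c)) s := by
    intro s hs
    have h1 : HasDerivAt (fun r : ℝ => Real.exp (c * r)) (Real.exp (c * s) * c) s := by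
      have h2 : HasDerivAt (fun r : ℝ => c * r) c s := by
        simpa using (hasDerivAt_id s).const_mul c
      exact h2.exp
    exact (hf s hs).mul h1
  have hmono : MonotoneOn (fun r => f r * Real.exp (c * r)) (Set.Ioc 0 T) := by
    refine monotoneOn_of_deriv_nonneg (convex_Ioc 0 T) ?_ ?_ ?_
    · intro s hs
      exact (hg s hs.1).continuousAt.continuousWithinAt
    · intro s hs
      rw [interior_Ioc] at hs
      exact (hg s hs.1).differentiableAt.differentiableWithinAt
    · intro s hs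
      rw [interior_Ioc] at hs
      rw [(hg s hs.1).deriv]
      have h1 := h s hs.1 hs.2.le
      have h2 := Real.exp_pos (c * s)
      have h3 : f' s * Real.exp (c * s) + f s * (Real.exp (c * s) * c) =
          (f' s + c * f s) * Real.exp (c * s) := by ring
      rw [h3]
      exact mul_nonneg (by linarith) h2.le
  have hlim : Filter.Tendsto (fun r => f r * Real.exp (c * r)) (nhdsWithin 0 (Set.Ioi 0))
      (nhds (0 * Real.exp (c * 0))) := by
    refine h0.mul ?_
    have hc : Continuous fun r : ℝ => Real.exp (c * r) := by fun_prop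
    exact (hc.tendsto 0).mono_left nhdsWithin_le_nhds
  rw [zero_mul] at hlim
  have hle : 0 ≤ f t * Real.exp (c * t) := by
    refine le_of_tendsto hlim ?_
    have hmem : Set.Ioo (0 : ℝ) t ∈ nhdsWithin (0 : ℝ) (Set.Ioi 0) := Ioo_mem_nhdsGT ht
    filter_upwards [hmem] with r hr
    exact hmono ⟨hr.1, hr.2.le.trans htT⟩ ⟨ht, htT⟩ hr.2.le
  exact nonneg_of_mul_nonneg_left hle (Real.exp_pos _)

end Pool.Agent.H68.BE
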