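import Pool.Agent.H68.BE.Bas
import Pool.Agent.H68.BE.PsA

set_option autoImplicit false

/-!
# Module EnR: the real inequality for the derivative of the entropy

Let `x > 0` resp. the case of a set which is never reached. Here `m ≥ 2`, `W ∈ [0, m q]`, `U = W - u`, `u = wm ∈ [0, m q]`, `P > 0` (the value `pp m`), `Q > 0`
(the value `wm m * pp (m-1)`), `f = phi`, `y = f/Q ≥ 0`. Left side
`L = (-(m(p+q) - W) P x + f) log x + (-(m(p+q) - u) P + Q) (1 - x)`. Expand with `x log x = ps x + x - 1`: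
`L = -(m(p+q) - W) P ps x + U P (x - 1) + Q (y log x - x + 1)`; `y log x - x + 1 ≤ ps y` (`ps_fench`), `m(p+q) - W ≥ m p`, and
`U (x-1) ≤ (mp/4) ps x + 4 U^2/(m p)`: `ps_young` with `c = 4U/(mp)`, `|c| ≤ 4q/p ≤ 2/5 ≤ 1`, `exp c - 1 - c ≤ c^2`
(`Real.abs_exp_sub_one_sub_id_le`), times `mp/4`.
`ent_real0` (`x = 0`, `f = 0`): `-(m(p+q) - u) P + Q ≤ -(3/4) m p P + 4U^2/(mp) P + Q`, `u ≤ m q`.
-/

open Finset

namespace Pool.Agent.H68.BE

open Pool.Agent.H78.Bass

variable {M : ℕ} {p q a : ℝ} {w : Fin M → Fin M → ℝ}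

theorem ent_real {m P Q u W f x : ℝ} (hm : 2 ≤ m) (hp : 0 < p) (hq : 0 < q)
    (hP : 0 < P) (hQ : 0 < Q) (hu0 : 0 ≤ u) (hu : u ≤ m * q) (hW0 : 0 ≤ W) (hW : W ≤ m * q)
    (hf : 0 ≤ f) (hx : 0 < x) :
    (-(m * (p + q) - W) * (P * x) + f) * Real.log x + (-(m * (p + q) - u) * P + Q) * (1 - x) ≤
      -(m * (p - q)) * (P * ps x) + P / (m * q) * (W - u) ^ 2 + Q * ps (f / Q) := by
  have hm0 : 0 < m := by linarith
  have hmq : 0 < m * q := mul_pos hm0 hq
  have hps : 0 ≤ ps x := ps_nonneg hx.le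
  have e1 : (-(m * (p + q) - W) * (P * x) + f) * Real.log x +
      (-(m * (p + q) - u) * P + Q) * (1 - x) =
      -(m * (p + q) - W) * (P * ps x) + P * ((W - u) * (x - 1)) +
        Q * (f / Q * Real.log x - x + 1) := by
    have h1 : Q * (f / Q * Real.log x - x + 1) = f * Real.log x - Q * x + Q := by
      field_simp
    rw [h1]
    unfold ps
    ring
  have h2 : f / Q * Real.log x - x + 1 ≤ ps (f / Q) := ps_fench hx (div_nonneg hf hQ.le)
  have h3 := mul_le_mul_of_nonneg_left h2 hQ.le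
  have hc1 : |(W - u) / (m * q)| ≤ 1 := by
    rw [abs_le]
    constructor
    · rw [le_div_iff₀ hmq]
      linarith
    · rw [div_le_iff₀ hmq]
      linarith
  have h4 := ps_young hx.le ((W - u) / (m * q))
  have h5 : Real.exp ((W - u) / (m * q)) - 1 - (W - u) / (m * q) ≤
      ((W - u) / (m * q)) ^ 2 :=
    (le_abs_self _).trans (Real.abs_exp_sub_one_sub_id_le hc1)
  have h6 : (W - u) / (m * q) * (x - 1) ≤ ps x + ((W - u) / (m * q)) ^ 2 := by linarith
  have h7 : (W - u) * (x - 1) ≤ m * q * ps x + 1 / (m * q) * (W - u) ^ 2 := by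
    have h8 := mul_le_mul_of_nonneg_left h6 hmq.le
    have e2 : m * q * ((W - u) / (m * q) * (x - 1)) = (W - u) * (x - 1) := by
      field_simp
    have e3 : m * q * (ps x + ((W - u) / (m * q)) ^ 2) =
        m * q * ps x + 1 / (m * q) * (W - u) ^ 2 := by
      field_simp
    rwa [e2, e3] at h8
  have h9 := mul_le_mul_of_nonneg_left h7 hP.le
  have h10 : -(m * (p + q) - W) * (P * ps x) ≤ -(m * p) * (P * ps x) := by
    refine mul_le_mul_of_nonneg_right ?_ (mul_nonneg hP.le hps)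
    linarith
  have e4 : P * (m * q * ps x + 1 / (m * q) * (W - u) ^ 2) =
      m * q * (P * ps x) + P / (m * q) * (W - u) ^ 2 := by
    ring
  rw [e1]
  rw [e4] at h9
  have e5 : -(m * (p - q)) * (P * ps x) = -(m * p) * (P * ps x) + m * q * (P * ps x) := by ring
  rw [e5]
  linarith [h3, h9, h10]

theorem ent_real0 {m P Q u W : ℝ} (hm : 2 ≤ m) (hp : 0 < p) (hq : 0 < q)
    (hP : 0 < P) (hQ : 0 < Q) (hu0 : 0 ≤ u) (hu : u ≤ m * q) (hW0 : 0 ≤ W) (hW : W ≤ m * q) :
    -(m * (p + q) - u) * P + Q ≤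
      -(m * (p - q)) * (P * ps 0) + P / (m * q) * (W - u) ^ 2 + Q * ps 0 := by
  have hm0 : 0 < m := by linarith
  rw [ps_zero]
  have h1 : 0 ≤ P / (m * q) * (W - u) ^ 2 := by positivity
  have h2 : -(m * (p + q) - u) * P ≤ -(m * (p - q)) * P := by
    refine mul_le_mul_of_nonneg_right ?_ hP.le
    have : 0 < m * q := mul_pos hm0 hq
    linarith
  linarith

end Pool.Agent.H68.BE
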