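import Pool.Agent.H68.BE.Bas
import Pool.Agent.H68.BE.EnR
import Pool.Agent.H68.BE.Chn

set_option autoImplicit false

/-!
# Module EnD: the derivative of the entropy

Let `s > 0`, `P = pp m s`, `Q = wm m * pp (m-1) s`. By `mu_dich` for each `B ∈ lev M m`: either `mu r B > 0` for `r > 0`, then
`r ↦ pp m r * ps (mu r B/pp m r) = mu log (mu/pp) - mu + pp` has at `s` the derivative `mu' log (mu/pp) + pp' (1 - mu/pp)`; by `mu_hasDeriv`, `pp_hasDeriv` and
`ent_real` (`x = mu/pp`, `W = wt w B`, `u = wm a m`, `|B| = m`) it is `≤ -(3/4) m p P ps x + 4P/(mp) exc^2 + Q ps (phi/Q)`. Or `mu r B = 0` for all `r ≥ 0`; then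
the term is `pp m r` near `s` (`r > 0`), and `phi s B = 0` (the derivative of `mu` at `s` is zero): `ent_real0`. Sum over `B` and use
`src_chn`.
-/

open Finset

namespace Pool.Agent.H68.BE

open Pool.Agent.H78.Bass

variable {M : ℕ} {p q a : ℝ} {w : Fin M → Fin M → ℝ}

private theorem EnD_ps {P f : ℝ → ℝ} {P' f' s : ℝ} (hP : HasDerivAt P P' s)
    (hf : HasDerivAt f f' s) (hPs : 0 < P s) (hfs : 0 < f s) :
    HasDerivAt (fun r => P r * ps (f r / P r))
      (f' * Real.log (f s / P s) + P' * (1 - f s / P s)) s := by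
  have hx : 0 < f s / P s := div_pos hfs hPs
  have h1 : HasDerivAt (fun r => f r / P r) ((f' * P s - f s * P') / P s ^ 2) s :=
    hf.div hP hPs.ne'
  have h2 : HasDerivAt (fun r => Real.log (f r / P r))
      (((f' * P s - f s * P') / P s ^ 2) / (f s / P s)) s := h1.log hx.ne'
  have h3 : HasDerivAt (fun r => f r / P r * Real.log (f r / P r) - f r / P r + 1)
      ((f' * P s - f s * P') / P s ^ 2 * Real.log (f s / P s) +
        f s / P s * (((f' * P s - f s * P') / P s ^ 2) / (f s / P s)) -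
        (f' * P s - f s * P') / P s ^ 2) s := ((h1.mul h2).sub h1).add_const 1
  have h4 : HasDerivAt (fun r => P r * (f r / P r * Real.log (f r / P r) - f r / P r + 1))
      (P' * (f s / P s * Real.log (f s / P s) - f s / P s + 1) +
        P s * ((f' * P s - f s * P') / P s ^ 2 * Real.log (f s / P s) +
        f s / P s * (((f' * P s - f s * P') / P s ^ 2) / (f s / P s)) -
        (f' * P s - f s * P') / P s ^ 2)) s := hP.mul h3
  have h5 : P' * (f s / P s * Real.log (f s / P s) - f s / P s + 1) +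
        P s * ((f' * P s - f s * P') / P s ^ 2 * Real.log (f s / P s) +
        f s / P s * (((f' * P s - f s * P') / P s ^ 2) / (f s / P s)) -
        (f' * P s - f s * P') / P s ^ 2) =
      f' * Real.log (f s / P s) + P' * (1 - f s / P s) := by
    have hP0 := hPs.ne'
    have hf0 := hfs.ne'
    generalize Real.log (f s / P s) = L
    field_simp
    ring
  rw [h5] at h4
  exact h4

private theorem EnD_term (H : Hyp p q a w) {m : ℕ} (h2 : 2 ≤ m) (hm : m ≤ M) {s : ℝ} (hs : 0 < s)
    {B : Finset (Fin M)} (hB : B.card = m) :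
    ∃ e : ℝ, HasDerivAt (fun r => pp p q a M m r * ps (mu p q w r B / pp p q a M m r)) e s ∧
      e ≤ -((m : ℝ) * (p - q)) *
          (pp p q a M m s * ps (mu p q w s B / pp p q a M m s)) +
        pp p q a M m s / ((m : ℝ) * q) * exc a w B ^ 2 +
        wm a m * pp p q a M (m - 1) s *
          ps (phi p q w s B / (wm a m * pp p q a M (m - 1) s)) := by
  have hm2 : (2 : ℝ) ≤ (m : ℝ) := by exact_mod_cast h2
  have hP : 0 < pp p q a M m s := pp_pos H (by omega) hs
  have hQ : 0 < wm a m * pp p q a M (m - 1) s :=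
    mul_pos (H.wm_pos h2) (pp_pos H (by omega) hs)
  have hu0 : 0 ≤ wm a m := (H.wm_pos h2).le
  have hu : wm a m ≤ (m : ℝ) * q := H.wm_le hm
  have hW0 : 0 ≤ wt w B := wt_nonneg H.hw B
  have hW : wt w B ≤ (m : ℝ) * q := by
    have h := wt_le H.hw B
    rw [hB] at h
    exact h
  have hE : exc a w B = wt w B - wm a m := by
    rw [exc_eq, hB]
  have hmu : HasDerivAt (fun r => mu p q w r B)
      (-((m : ℝ) * (p + q) - wt w B) * mu p q w s B + phi p q w s B) s := by
    have h := mu_hasDeriv p q w s B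
    rw [hB] at h
    exact h
  have hpp : HasDerivAt (pp p q a M m)
      (-((m : ℝ) * (p + q) - wm a m) * pp p q a M m s + wm a m * pp p q a M (m - 1) s) s :=
    pp_hasDeriv p q a M h2 s
  rw [hE]
  rcases mu_dich H B with h0 | hpos
  · have hms : mu p q w s B = 0 := h0 s hs.le
    have hphi : phi p q w s B = 0 := by
      have h1 : HasDerivAt (fun r => mu p q w r B) 0 s := by
        refine (hasDerivAt_const s (0 : ℝ)).congr_of_eventuallyEq ?_
        filter_upwards [Ioi_mem_nhds hs] with r hr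
        exact h0 r (le_of_lt hr)
      have h3 := hmu.unique h1
      rw [hms, mul_zero, zero_add] at h3
      exact h3
    refine ⟨-((m : ℝ) * (p + q) - wm a m) * pp p q a M m s +
      wm a m * pp p q a M (m - 1) s, ?_, ?_⟩
    · refine hpp.congr_of_eventuallyEq ?_
      filter_upwards [Ioi_mem_nhds hs] with r hr
      rw [h0 r (le_of_lt hr), zero_div, ps_zero, mul_one]
    · rw [hms, hphi, zero_div, zero_div]
      exact ent_real0 hm2 H.hp H.hq hP hQ hu0 hu hW0 hW
  · have hms : 0 < mu p q w s B := hpos s hs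
    refine ⟨_, EnD_ps hpp hmu hP hms, ?_⟩
    have hf : 0 ≤ phi p q w s B := phi_nonneg H.hw p hs.le B
    have hx : 0 < mu p q w s B / pp p q a M m s := div_pos hms hP
    have h := ent_real hm2 H.hp H.hq hP hQ hu0 hu hW0 hW hf hx
    have h3 : pp p q a M m s * (mu p q w s B / pp p q a M m s) = mu p q w s B :=
      mul_div_cancel₀ _ hP.ne'
    rw [h3] at h
    exact h

theorem ent_deriv (H : Hyp p q a w) {m : ℕ} (h2 : 2 ≤ m) (hm : m ≤ M) {s : ℝ} (hs : 0 < s) :
    ∃ e : ℝ, HasDerivAt (ent p q a w m) e s ∧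
      e ≤ -((m : ℝ) * (p - q)) * ent p q a w m s +
        2 * (((m : ℝ) - 1) * q * ent p q a w (m - 1) s) +
        (pp p q a M (m - 1) s / wm a m + pp p q a M m s / ((m : ℝ) * q)) *
          ∑ B ∈ lev M m, exc a w B ^ 2 := by
  have h1 : ∀ B ∈ lev M m, ∃ e : ℝ,
      HasDerivAt (fun r => pp p q a M m r * ps (mu p q w r B / pp p q a M m r)) e s ∧
      e ≤ -((m : ℝ) * (p - q)) *
          (pp p q a M m s * ps (mu p q w s B / pp p q a M m s)) +
        pp p q a M m s / ((m : ℝ) * q) * exc a w B ^ 2 +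
        wm a m * pp p q a M (m - 1) s *
          ps (phi p q w s B / (wm a m * pp p q a M (m - 1) s)) :=
    fun B hB => EnD_term H h2 hm hs (mem_lev.1 hB)
  choose! e he1 he2 using h1
  refine ⟨∑ B ∈ lev M m, e B, HasDerivAt.fun_sum fun B hB => he1 B hB, ?_⟩
  have h3 := sum_le_sum he2
  have h4 := src_chn H h2 hs
  have a1 : ∑ B ∈ lev M m, -((m : ℝ) * (p - q)) *
      (pp p q a M m s * ps (mu p q w s B / pp p q a M m s)) =
      -((m : ℝ) * (p - q)) * ent p q a w m s := by
    rw [← mul_sum]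
    rfl
  have a2 : ∑ B ∈ lev M m, pp p q a M m s / ((m : ℝ) * q) * exc a w B ^ 2 =
      pp p q a M m s / ((m : ℝ) * q) * ∑ B ∈ lev M m, exc a w B ^ 2 := by
    rw [← mul_sum]
  rw [sum_add_distrib, sum_add_distrib, a1, a2] at h3
  calc ∑ B ∈ lev M m, e B ≤ _ := h3
    _ ≤ _ := by linarith

end Pool.Agent.H68.BE
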