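import Pool.Agent.H68.BE.Bas
import Pool.Agent.H68.BE.MuB
import Pool.Agent.H68.BE.PpB

set_option autoImplicit false

/-!
# Module L2A: level two, pointwise

Let `V = exc a w B`, `v = V/(2a)`, `W = wt w B = 2a (1+v) ∈ [0, 2q]`, `m = mu s B`, `P = pp 2 s`. By `mu_single` `phi s B = W pp 1 s`
(`B = {i, j}`: the two terms are `qin w i {j} pp 1`, `qin w j {i} pp 1`; or `qin_erase`), so `m' = -(lm 2 - V) m + W pp 1`. `D = m - (1+v) P` satisfies
`D' = -(lm 2 - V) D + V (1+v) P`, `D 0 = 0`.
If `V ≥ 0`: `0 ≤ D ≤ K V (1+v) P`, `K = 1/(p-q)`: `compare` for `D`, and for `E = K V (1+v) P - D`: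
`E' ≥ -(lm 2 - V) E + V (1+v) P (K (lm 2 - V - (p+q)) - 1)` by `P' ≥ -(p+q) P` (`pp_mono`, `pp_hasDeriv`) and `lm 2 - V - (p+q) = p + q - W ≥ p - q`.
If `V ≤ 0`: the same for `-D`: `0 ≤ -D ≤ K (-V) (1+v) P`.
`l2_gain`: `V (m - P) = V (D + v P) ≥ V v P = V^2/(2a) P`. `l2_abs`: `|m - P| ≤ |D| + |v| P ≤ |v| P (2a (1+v)/(p-q) + 1)` and
`2a (1+v) = W ≤ 2q`: `(2q + p - q)/(p-q) = (p+q)/(p-q) ≤ 11/9`.
-/

open Finset

namespace Pool.Agent.H68.BE

open Pool.Agent.H78.Bass

variable {M : ℕ} {p q a : ℝ} {w : Fin M → Fin M → ℝ}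

private theorem L2A_phi (H : Hyp p q a w) {B : Finset (Fin M)} (hB : B ∈ lev M 2) (s : ℝ) :
    phi p q w s B = wt w B * pp p q a M 1 s := by
  rw [← qin_erase H.hw B, sum_mul]
  unfold phi
  refine sum_congr rfl fun k hk => ?_
  have hc : (B.erase k).card = 1 := by
    rw [card_erase_of_mem hk, mem_lev.1 hB]
  obtain ⟨j, hj⟩ := card_eq_one.1 hc
  have h1 : mu p q w s (B.erase k) = pp p q a M 1 s := by
    rw [hj, mu_single H.hw, pp_one]
  rw [h1]

private theorem L2A_core (H : Hyp p q a w) {B : Finset (Fin M)} (hB : B ∈ lev M 2) (σ : ℝ)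
    (hσ : 0 ≤ σ * exc a w B) {s : ℝ} (hs : 0 ≤ s) :
    0 ≤ σ * (mu p q w s B - wt w B / (2 * a) * pp p q a M 2 s) ∧
      (q * s ≤ 1 / 20 → σ * (mu p q w s B - wt w B / (2 * a) * pp p q a M 2 s) ≤
        σ * exc a w B * (10 / 9 * s) * (wt w B / (2 * a)) * pp p q a M 2 s) := by
  have ha := H.a_pos
  have hq := H.hq
  have hM : 2 ≤ M := le_trans (by norm_num) H.hM
  have hcard : B.card = 2 := mem_lev.1 hB
  have hW0 := wt_nonneg H.hw B
  have hW2 : wt w B ≤ 2 * q := by
    have h := wt_le H.hw B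
    rw [hcard] at h
    push_cast at h
    exact h
  have hV : exc a w B = wt w B - 2 * a := by
    rw [exc_eq, hcard, wm_two]
  have hlm : lm p q a 2 = 2 * (p + q) - 2 * a := by
    unfold lm
    rw [wm_two]
    push_cast
    ring
  obtain ⟨u, hu⟩ : ∃ u : ℝ, u = wt w B / (2 * a) := ⟨_, rfl⟩
  have hu0 : 0 ≤ u := by
    rw [hu]
    positivity
  have huW : 2 * a * u = wt w B := by
    rw [hu]
    field_simp
  rw [← hu]
  have hm : ∀ t, HasDerivAt (fun r => mu p q w r B)
      (-(2 * (p + q) - wt w B) * mu p q w t B + wt w B * pp p q a M 1 t) t := by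
    intro t
    have h := mu_hasDeriv p q w t B
    rw [L2A_phi H hB, hcard] at h
    push_cast at h
    exact h
  have hP : ∀ t, HasDerivAt (pp p q a M 2)
      (-(2 * (p + q) - 2 * a) * pp p q a M 2 t + 2 * a * pp p q a M 1 t) t := by
    intro t
    have h := pp_hasDeriv p q a M (m := 2) le_rfl t
    rw [hlm, wm_two] at h
    exact h
  have hm0 : mu p q w 0 B = 0 := by
    rw [mu_zero, if_neg (by rw [hcard]; norm_num)]
  have hP0 : pp p q a M 2 0 = 0 := pp_zero p q a M le_rfl
  have hf : ∀ t, HasDerivAt (fun t => σ * (mu p q w t B - u * pp p q a M 2 t))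
      (σ * ((-(2 * (p + q) - wt w B) * mu p q w t B + wt w B * pp p q a M 1 t) -
        u * (-(2 * (p + q) - 2 * a) * pp p q a M 2 t + 2 * a * pp p q a M 1 t))) t :=
    fun t => ((hm t).sub ((hP t).const_mul u)).const_mul σ
  have hfe : ∀ t, σ * ((-(2 * (p + q) - wt w B) * mu p q w t B + wt w B * pp p q a M 1 t) -
        u * (-(2 * (p + q) - 2 * a) * pp p q a M 2 t + 2 * a * pp p q a M 1 t)) =
      -(2 * (p + q) - wt w B) * (σ * (mu p q w t B - u * pp p q a M 2 t)) +
        σ * exc a w B * u * pp p q a M 2 t := by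
    intro t
    rw [hV]
    linear_combination (-(σ * pp p q a M 1 t)) * huW
  have hX : 0 ≤ σ * exc a w B * u := mul_nonneg hσ hu0
  constructor
  · refine compare (f := fun t => σ * (mu p q w t B - u * pp p q a M 2 t))
      (c := 2 * (p + q) - wt w B) hf ?_ ?_ hs
    · intro t ht
      rw [hfe t]
      have h1 := mul_nonneg hX (pp_nonneg H (m := 2) (by norm_num) ht)
      linarith
    · simp only [hm0, hP0]
      simp
  · intro hqs
    have hE : ∀ t, HasDerivAt (fun t => 10 / 9 * (σ * exc a w B * u) * t * pp p q a M 2 t -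
        σ * (mu p q w t B - u * pp p q a M 2 t))
        ((10 / 9 * (σ * exc a w B * u) * pp p q a M 2 t + 10 / 9 * (σ * exc a w B * u) * t *
          (-(2 * (p + q) - 2 * a) * pp p q a M 2 t + 2 * a * pp p q a M 1 t)) -
          (σ * ((-(2 * (p + q) - wt w B) * mu p q w t B + wt w B * pp p q a M 1 t) -
        u * (-(2 * (p + q) - 2 * a) * pp p q a M 2 t + 2 * a * pp p q a M 1 t)))) t := by
      intro t
      have h1 : HasDerivAt (fun t : ℝ => 10 / 9 * (σ * exc a w B * u) * t)
          (10 / 9 * (σ * exc a w B * u)) t := by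
        simpa using (hasDerivAt_id t).const_mul (10 / 9 * (σ * exc a w B * u))
      exact (h1.mul (hP t)).sub (hf t)
    have h2 := compareT (f := fun t => 10 / 9 * (σ * exc a w B * u) * t * pp p q a M 2 t -
        σ * (mu p q w t B - u * pp p q a M 2 t)) (c := 2 * (p + q) - wt w B)
        (T := 1 / 20 / q) hE ?_ ?_ hs (by rw [le_div_iff₀ hq]; linarith)
    · have h3 : σ * exc a w B * (10 / 9 * s) * u * pp p q a M 2 s =
          10 / 9 * (σ * exc a w B * u) * s * pp p q a M 2 s := by ring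
      rw [h3]
      linarith
    · intro t ht htT
      have hqt : q * t ≤ 1 / 20 := by
        rw [le_div_iff₀ hq] at htT
        linarith
      rw [hfe t]
      have hP2 := pp_nonneg H (m := 2) (by norm_num) ht
      have hP1 := pp_nonneg H (m := 1) (by norm_num) ht
      have k1 : (wt w B - 2 * a) * t ≤ 1 / 10 := by
        have k2 : (wt w B - 2 * a) * t ≤ 2 * q * t := by
          refine mul_le_mul_of_nonneg_right ?_ ht
          linarith
        linarith
      have k3 : 0 ≤ σ * exc a w B * u * (10 / 9 * t * (2 * a * pp p q a M 1 t)) := by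
        refine mul_nonneg hX ?_
        positivity
      have k4 : 0 ≤ (10 / 9 * (1 - (wt w B - 2 * a) * t) - 1) * pp p q a M 2 t := by
        refine mul_nonneg ?_ hP2
        linarith
      have k5 := mul_nonneg hX k4
      nlinarith [k3, k5]
    · simp only [hm0, hP0]
      simp

theorem l2_gain (H : Hyp p q a w) {s : ℝ} (hs : 0 ≤ s) {B : Finset (Fin M)} (hB : B ∈ lev M 2) :
    exc a w B ^ 2 / wm a 2 * pp p q a M 2 s ≤
      exc a w B * (mu p q w s B - pp p q a M 2 s) := by
  have ha := H.a_pos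
  have h1 := (L2A_core H hB (exc a w B) (mul_self_nonneg _) hs).1
  have hV : exc a w B = wt w B - 2 * a := by
    rw [exc_eq, mem_lev.1 hB, wm_two]
  have h2 : wt w B / (2 * a) = exc a w B / (2 * a) + 1 := by
    rw [hV]
    field_simp
    ring
  rw [h2] at h1
  rw [wm_two]
  have h3 : exc a w B * (mu p q w s B - pp p q a M 2 s) =
      exc a w B * (mu p q w s B - (exc a w B / (2 * a) + 1) * pp p q a M 2 s) +
        exc a w B ^ 2 / (2 * a) * pp p q a M 2 s := by
    ring
  rw [h3]
  linarith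

theorem l2_abs (H : Hyp p q a w) {s : ℝ} (hs : 0 ≤ s) (hqs : q * s ≤ 1 / 20)
    {B : Finset (Fin M)} (hB : B ∈ lev M 2) :
    |mu p q w s B - pp p q a M 2 s| ≤ |exc a w B| / wm a 2 * (11 / 9) * pp p q a M 2 s := by
  have ha := H.a_pos
  have hq := H.hq
  have hP2 := pp_nonneg H (m := 2) (by norm_num) hs
  have hcard : B.card = 2 := mem_lev.1 hB
  have hW0 := wt_nonneg H.hw B
  have hW2 : wt w B ≤ 2 * q := by
    have h := wt_le H.hw B
    rw [hcard] at h
    push_cast at h
    exact h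
  have hV : exc a w B = wt w B - 2 * a := by
    rw [exc_eq, hcard, wm_two]
  have h2 : wt w B / (2 * a) = exc a w B / (2 * a) + 1 := by
    rw [hV]
    field_simp
    ring
  have hD : |mu p q w s B - wt w B / (2 * a) * pp p q a M 2 s| ≤
      |exc a w B| * (10 / 9 * s) * (wt w B / (2 * a)) * pp p q a M 2 s := by
    rcases le_total 0 (exc a w B) with h | h
    · obtain ⟨h3, h4⟩ := L2A_core H hB 1 (by rw [one_mul]; exact h) hs
      replace h4 := h4 hqs
      rw [one_mul] at h3
      rw [one_mul, one_mul] at h4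
      rw [abs_of_nonneg h3, abs_of_nonneg h]
      exact h4
    · obtain ⟨h3, h4⟩ := L2A_core H hB (-1) (by linarith) hs
      replace h4 := h4 hqs
      have h3' : mu p q w s B - wt w B / (2 * a) * pp p q a M 2 s ≤ 0 := by linarith
      rw [abs_of_nonpos h3', abs_of_nonpos h]
      have h5 : -1 * exc a w B = -exc a w B := by ring
      rw [h5] at h4
      linarith
  have h6 : |exc a w B| * (10 / 9 * s) * (wt w B / (2 * a)) * pp p q a M 2 s ≤
      |exc a w B| / (2 * a) * (2 / 9) * pp p q a M 2 s := by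
    refine mul_le_mul_of_nonneg_right ?_ hP2
    have h7 : wt w B * (10 / 9 * s) ≤ 2 / 9 := by
      have h8 := mul_le_mul_of_nonneg_right hW2 hs
      linarith
    have h8 : |exc a w B| * (10 / 9 * s) * (wt w B / (2 * a)) =
        |exc a w B| / (2 * a) * (wt w B * (10 / 9 * s)) := by
      ring
    rw [h8]
    exact mul_le_mul_of_nonneg_left h7 (by positivity)
  have h9 : mu p q w s B - pp p q a M 2 s =
      (mu p q w s B - wt w B / (2 * a) * pp p q a M 2 s) +
        exc a w B / (2 * a) * pp p q a M 2 s := by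
    rw [h2]
    ring
  have h10 : |exc a w B / (2 * a) * pp p q a M 2 s| =
      |exc a w B| / (2 * a) * pp p q a M 2 s := by
    rw [abs_mul, abs_div, abs_of_nonneg hP2, abs_of_pos (show (0 : ℝ) < 2 * a by linarith)]
  rw [wm_two, h9]
  refine (abs_add_le _ _).trans ?_
  rw [h10]
  have h11 := hD.trans h6
  have h12 : |exc a w B| / (2 * a) * (11 / 9) * pp p q a M 2 s =
      |exc a w B| / (2 * a) * (2 / 9) * pp p q a M 2 s +
        |exc a w B| / (2 * a) * pp p q a M 2 s := by
    ring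
  rw [h12]
  linarith

end Pool.Agent.H68.BE
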