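import Pool.Agent.H68.BE.Bas
import Pool.Agent.H68.BE.MuB
import Pool.Agent.H68.BE.PpB
import Pool.Agent.H68.BE.PsA

set_option autoImplicit false

/-!
# Module MuK: the entropies vanish at time zero

`mu_le`: induction on `m ≥ 1`. `m = 1`: `mu_single`, `K = 1`. Step: let `K'` be the constant for `m - 1`, `phi s B ≤ K' pp (m-1) s * wt w B ≤ K' m q pp (m-1) s`
(`qin_erase`, `wt_le`). Take `K = (K' + 1) * m q/wm m * 2`. `E = K pp m - mu s B`: `E' = -(lm - U) E + K wm pp (m-1) - K U pp m - phi`, `U = exc a w B ≤ m q`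
(`wt_le`), and by `pp_le` `U pp m ≤ m q/((m-1)p-q) wm pp (m-1) ≤ (1/2) wm pp (m-1)` (`m q ≤ (1/2)((m-1)p-q)` because `p ≥ 10 q`, `m ≥ 2`), so
`E' ≥ -(lm - U) E + (1/2) K wm pp (m-1) - K' m q pp (m-1) ≥ -(lm - U) E`: `compare`, `E 0 = 0`.
`ent_tendsto`: `0 ≤ ent m s ≤ ∑ pp m s * C` with `C = max 1 (K-1)^2` or `1 + (K+1)^2` (`ps_le_sq`, `0 ≤ mu/pp ≤ K`), and `pp m s → 0`
(`pp_cont`, `pp_zero`): squeeze.
-/

open Finset

namespace Pool.Agent.H68.BE

open Pool.Agent.H78.Bass

variable {M : ℕ} {p q a : ℝ} {w : Fin M → Fin M → ℝ}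

private theorem MuK_step (H : Hyp p q a w) {m : ℕ} (h2 : 2 ≤ m) (hm : m ≤ M) {K' : ℝ}
    (hK' : 0 ≤ K')
    (ih : ∀ B ∈ lev M (m - 1), ∀ s, 0 ≤ s → q * s ≤ 1 / 20 →
      mu p q w s B ≤ K' * pp p q a M (m - 1) s) :
    ∃ K : ℝ, 0 ≤ K ∧ ∀ B ∈ lev M m, ∀ s, 0 ≤ s → q * s ≤ 1 / 20 →
      mu p q w s B ≤ K * pp p q a M m s := by
  have hwm := H.wm_pos h2
  have hq := H.hq
  have hp := H.hp
  have hm2 : (2 : ℝ) ≤ (m : ℝ) := by exact_mod_cast h2
  set K : ℝ := 2 * ((K' + 1) * ((m : ℝ) * q) / wm a m) with hKdef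
  have hKw : K * wm a m = 2 * ((K' + 1) * ((m : ℝ) * q)) := by
    rw [hKdef]
    field_simp
  have hK : 0 ≤ K := by
    rw [hKdef]
    positivity
  refine ⟨K, hK, ?_⟩
  intro B hB s hs hqs
  have hc : B.card = m := mem_lev.1 hB
  have hphi : ∀ t, 0 ≤ t → q * t ≤ 1 / 20 →
      phi p q w t B ≤ K' * ((m : ℝ) * q) * pp p q a M (m - 1) t := by
    intro t ht hqt
    have hpp := pp_nonneg H (m := m - 1) (by omega) ht
    have h1 : phi p q w t B ≤
        ∑ k ∈ B, qin w k (B.erase k) * (K' * pp p q a M (m - 1) t) := by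
      unfold phi
      refine sum_le_sum fun k hk => ?_
      refine mul_le_mul_of_nonneg_left ?_ (qin_nonneg H.hw k _)
      refine ih _ (mem_lev.2 ?_) t ht hqt
      rw [card_erase_of_mem hk, hc]
    rw [← sum_mul, qin_erase H.hw] at h1
    have h3 := wt_le H.hw B
    rw [hc] at h3
    have h4 : wt w B * (K' * pp p q a M (m - 1) t) ≤
        ((m : ℝ) * q) * (K' * pp p q a M (m - 1) t) :=
      mul_le_mul_of_nonneg_right h3 (mul_nonneg hK' hpp)
    nlinarith [h1, h4]
  have hE : ∀ t, HasDerivAt (fun r => K * pp p q a M m r - mu p q w r B)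
      (K * (-(lm p q a m) * pp p q a M m t + wm a m * pp p q a M (m - 1) t) -
        (-((B.card : ℝ) * (p + q) - wt w B) * mu p q w t B + phi p q w t B)) t := by
    intro t
    exact ((pp_hasDeriv p q a M h2 t).const_mul K).sub (mu_hasDeriv p q w t B)
  have key := compareT (f := fun r => K * pp p q a M m r - mu p q w r B)
    (c := (B.card : ℝ) * (p + q) - wt w B) (T := 1 / 20 / q) hE ?_ ?_ hs
    (by rw [le_div_iff₀ hq]; linarith)
  · have : 0 ≤ K * pp p q a M m s - mu p q w s B := key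
    linarith
  · intro t ht htT
    have hqt : q * t ≤ 1 / 20 := by
      rw [le_div_iff₀ hq] at htT
      linarith
    have hphi' := hphi t ht hqt
    have hpp1 := pp_nonneg H (m := m - 1) (by omega) ht
    have hpp2 := pp_nonneg H (m := m) (by omega) ht
    have hwt := wt_le H.hw B
    rw [hc] at hwt
    have hle := pp_le H h2 hm ht
    rw [hc]
    have hlm : lm p q a m = (m : ℝ) * (p + q) - wm a m := rfl
    rw [hlm]
    have ha := H.a_pos
    have e2 : (m : ℝ) * q * pp p q a M m t ≤ 1 / 2 * wm a m * pp p q a M (m - 1) t := by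
      have hE := exp_le_E hqt
      have hE0 := Real.exp_pos (q * t)
      have k1 : q * t * Real.exp (q * t) ≤ 1 / 19 := by
        have k2 : 0 ≤ q * t := by positivity
        calc q * t * Real.exp (q * t) ≤ 1 / 20 * (20 / 19) :=
              mul_le_mul hqt hE hE0.le (by norm_num)
          _ = 1 / 19 := by norm_num
      have k3 : (m : ℝ) * (q * t * Real.exp (q * t)) ≤ 1 / 2 * ((m : ℝ) - 1) := by
        have k4 := mul_le_mul_of_nonneg_left k1 (by linarith : (0 : ℝ) ≤ (m : ℝ))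
        linarith
      have k5 : (m : ℝ) * q * ((m : ℝ) * a * t * Real.exp (q * t)) ≤ 1 / 2 * wm a m := by
        unfold wm
        have k6 := mul_le_mul_of_nonneg_left k3 (by positivity : (0 : ℝ) ≤ (m : ℝ) * a)
        linarith
      calc (m : ℝ) * q * pp p q a M m t ≤ (m : ℝ) * q *
            ((m : ℝ) * a * t * Real.exp (q * t) * pp p q a M (m - 1) t) :=
            mul_le_mul_of_nonneg_left hle (by positivity)
        _ = (m : ℝ) * q * ((m : ℝ) * a * t * Real.exp (q * t)) * pp p q a M (m - 1) t := by ring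
        _ ≤ _ := mul_le_mul_of_nonneg_right k5 hpp1
    have e3 : wt w B * pp p q a M m t ≤ 1 / 2 * wm a m * pp p q a M (m - 1) t :=
      (mul_le_mul_of_nonneg_right hwt hpp2).trans e2
    have e4 : K * (wt w B * pp p q a M m t) ≤ K * (1 / 2 * wm a m * pp p q a M (m - 1) t) :=
      mul_le_mul_of_nonneg_left e3 hK
    have e5 : K * (1 / 2 * wm a m * pp p q a M (m - 1) t) =
        (K' + 1) * ((m : ℝ) * q) * pp p q a M (m - 1) t := by
      calc K * (1 / 2 * wm a m * pp p q a M (m - 1) t) =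
            (K * wm a m) * (1 / 2 * pp p q a M (m - 1) t) := by ring
        _ = _ := by rw [hKw]; ring
    have e6 : K * (wm a m * pp p q a M (m - 1) t) =
        2 * ((K' + 1) * ((m : ℝ) * q)) * pp p q a M (m - 1) t := by
      rw [← hKw]
      ring
    have e7 : 0 ≤ (m : ℝ) * q * pp p q a M (m - 1) t := by positivity
    have e8 : 0 ≤ K * (wm a m * pp p q a M m t) := by positivity
    have goal1 : K * (-((m : ℝ) * (p + q) - wm a m) * pp p q a M m t +
        wm a m * pp p q a M (m - 1) t) -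
        (-((m : ℝ) * (p + q) - wt w B) * mu p q w t B + phi p q w t B) -
        (-((m : ℝ) * (p + q) - wt w B) * (K * pp p q a M m t - mu p q w t B)) =
        K * (wm a m * pp p q a M m t) - K * (wt w B * pp p q a M m t) +
        K * (wm a m * pp p q a M (m - 1) t) - phi p q w t B := by ring
    have goal2 : 0 ≤ K * (wm a m * pp p q a M m t) - K * (wt w B * pp p q a M m t) +
        K * (wm a m * pp p q a M (m - 1) t) - phi p q w t B := by
      rw [e6]
      rw [e5] at e4
      nlinarith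
    linarith [goal1, goal2]
  · have h0 : mu p q w 0 B = 0 := by
      rw [mu_zero, if_neg (by omega)]
    have h1 : pp p q a M m 0 = 0 := pp_zero p q a M h2
    simp [h0, h1]

theorem mu_le (H : Hyp p q a w) {m : ℕ} (h1 : 1 ≤ m) (hm : m ≤ M) :
    ∃ K : ℝ, 0 ≤ K ∧ ∀ B ∈ lev M m, ∀ s, 0 ≤ s → q * s ≤ 1 / 20 →
      mu p q w s B ≤ K * pp p q a M m s := by
  induction m, h1 using Nat.le_induction with
  | base =>
    refine ⟨1, zero_le_one, ?_⟩
    intro B hB s _ _
    obtain ⟨j, hj⟩ := card_eq_one.1 (mem_lev.1 hB)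
    rw [hj, mu_single H.hw, pp_one, one_mul]
  | succ n hn ih =>
    obtain ⟨K', hK', h⟩ := ih (by omega)
    exact MuK_step H (m := n + 1) (by omega) hm hK' (by simpa using h)

theorem ent_tendsto (H : Hyp p q a w) {m : ℕ} (h2 : 2 ≤ m) (hm : m ≤ M) :
    Filter.Tendsto (ent p q a w m) (nhdsWithin 0 (Set.Ioi 0)) (nhds 0) := by
  obtain ⟨K, hK, hmu⟩ := mu_le H (m := m) (by omega) hm
  have hup : Filter.Tendsto (fun s => ∑ _B ∈ lev M m, pp p q a M m s * (1 + (K + 1) ^ 2))
      (nhdsWithin 0 (Set.Ioi 0)) (nhds 0) := by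
    have h1 : Continuous (fun s => ∑ _B ∈ lev M m, pp p q a M m s * (1 + (K + 1) ^ 2)) :=
      continuous_finsetSum _ fun _ _ => (pp_cont p q a M m).mul continuous_const
    have h3 := (h1.tendsto 0).mono_left (nhdsWithin_le_nhds (s := Set.Ioi (0 : ℝ)))
    have h4 : ∑ _B ∈ lev M m, pp p q a M m 0 * (1 + (K + 1) ^ 2) = 0 := by
      simp [pp_zero p q a M h2]
    rw [h4] at h3
    exact h3
  refine tendsto_of_tendsto_of_tendsto_of_le_of_le' tendsto_const_nhds hup ?_ ?_
  · filter_upwards [self_mem_nhdsWithin] with s hs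
    have hs' : 0 < s := hs
    unfold ent
    refine sum_nonneg fun B _ => ?_
    have hp1 := pp_pos H (m := m) (by omega) hs'
    exact mul_nonneg hp1.le (ps_nonneg (div_nonneg (mu_nonneg H.hw p hs'.le B) hp1.le))
  · have hT : (0 : ℝ) < 1 / 20 / q := by
      have := H.hq
      positivity
    filter_upwards [Ioo_mem_nhdsGT hT] with s hs
    have hs' : 0 < s := hs.1
    have hqs : q * s ≤ 1 / 20 := by
      have h5 := hs.2.le
      rw [le_div_iff₀ H.hq] at h5
      linarith
    unfold ent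
    refine sum_le_sum fun B hB => ?_
    have hp1 := pp_pos H (m := m) (by omega) hs'
    refine mul_le_mul_of_nonneg_left ?_ hp1.le
    have hx0 : 0 ≤ mu p q w s B / pp p q a M m s :=
      div_nonneg (mu_nonneg H.hw p hs'.le B) hp1.le
    have hx1 : mu p q w s B / pp p q a M m s ≤ K := by
      rw [div_le_iff₀ hp1]
      exact hmu B hB s hs'.le hqs
    refine (ps_le_sq hx0).trans ?_
    nlinarith

end Pool.Agent.H68.BE
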