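import Pool.Agent.H68.BE.Bas
import Pool.Agent.H68.BE.PpB

set_option autoImplicit false

/-!
# Numbers, the recursion
-/

open Finset

namespace Pool.Agent.H68.BE

open Pool.Agent.H78.Bass

variable {M : ℕ} {p q a : ℝ} {w : Fin M → Fin M → ℝ}

private lemma NuA_second {q a A x y : ℝ} {n : ℕ} {F G : ℝ} (ha : 0 < a) (_hA : 2 ≤ A)
    (hqa : A * a = q) (hx : 0 ≤ x) (hG : 0 < G)
    (hF : F = ((n : ℝ) + 2) * G) (hy : y ≤ A ^ (n + 1) / G) :
    27 / 25 / (((n : ℝ) + 3) * (((n : ℝ) + 3) - 1) * a) *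
      ((a * x) ^ n * (F / 2)) *
      ((((n : ℝ) + 3) * (((n : ℝ) + 3) - 1) / 2) * y) ≤
      27 / 100 * ((n : ℝ) + 2) * (q / a ^ 2) * (q * x) ^ n := by
  have hn : (0 : ℝ) ≤ (n : ℝ) := Nat.cast_nonneg n
  have hF0 : 0 < F := by rw [hF]; positivity
  have h1 : 27 / 25 / (((n : ℝ) + 3) * (((n : ℝ) + 3) - 1) * a) *
      ((a * x) ^ n * (F / 2)) *
      ((((n : ℝ) + 3) * (((n : ℝ) + 3) - 1) / 2) * y)
      = 27 / 100 / a * ((a * x) ^ n * F) * y := by
    have e1 : ((n : ℝ) + 3) ≠ 0 := by positivity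
    have e2 : ((n : ℝ) + 3) - 1 ≠ 0 := by
      have : ((n : ℝ) + 3) - 1 = n + 2 := by ring
      rw [this]; positivity
    generalize (a * x) ^ n = z
    field_simp
    ring
  rw [h1]
  have h2 : 27 / 100 / a * ((a * x) ^ n * F) * y ≤
      27 / 100 / a * ((a * x) ^ n * F) * (A ^ (n + 1) / G) :=
    mul_le_mul_of_nonneg_left hy (by positivity)
  refine le_trans h2 (le_of_eq ?_)
  rw [hF, ← hqa, mul_pow, mul_pow, mul_pow]
  have e3 : a ≠ 0 := ha.ne'
  have e4 : G ≠ 0 := hG.ne'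
  have e6 : A ^ (n + 1) = A * A ^ n := by ring
  rw [e6]
  generalize A ^ n = b
  generalize a ^ n = c
  generalize x ^ n = d
  field_simp

theorem num_rec (H : Hyp p q a w) {m : ℕ} (h3 : 3 ≤ m) (hm : m ≤ M) {s : ℝ} (hs : 0 < s)
    (hqs : q * s ≤ 1 / 20) :
    2 * (((m : ℝ) - 1) * q * bb q a (m - 1) s) +
        27 / 25 / wm a m * ((a * s * Real.exp (q * s)) ^ (m - 3) *
          (((m - 1).factorial : ℝ) / 2)) *
          ((m.choose 2 : ℝ) * ((M - 2).choose (m - 2) : ℝ)) ≤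
      (((m : ℝ) - 2) / s + 19 / 20 / s - ((m : ℝ) + 2) * q) * bb q a m s := by
  have hA := H.M1
  have ha := H.a_pos
  have hq := H.hq
  have hqa := H.ha
  have hM := H.hM
  have hM2 : ((M - 2 : ℕ) : ℝ) ≤ (M : ℝ) - 1 := by
    have : ((M - 2 : ℕ) : ℝ) + 1 ≤ (M : ℝ) := by exact_mod_cast (by omega : M - 2 + 1 ≤ M)
    linarith
  obtain ⟨n, rfl⟩ : ∃ n, m = n + 3 := ⟨m - 3, by omega⟩
  have hn : (0 : ℝ) ≤ (n : ℝ) := Nat.cast_nonneg n
  have ech : ((n + 3).choose 2 : ℝ) = ((n : ℝ) + 3) * (((n : ℝ) + 3) - 1) / 2 := by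
    rw [Nat.cast_choose_two]; push_cast; ring
  have e3 : n + 3 - 3 = n := by omega
  have e2 : n + 3 - 2 = n + 1 := by omega
  have e1 : n + 3 - 1 = n + 2 := by omega
  have hE := exp_le_E hqs
  have hE0 := Real.exp_pos (q * s)
  have hsec := NuA_second (q := q) (a := a) (A := (M : ℝ) - 1) (x := s * Real.exp (q * s))
    (y := ((M - 2).choose (n + 1) : ℝ)) (n := n) (F := ((n + 2).factorial : ℝ))
    (G := ((n + 1).factorial : ℝ)) ha hA hqa (by positivity)
    (by exact_mod_cast Nat.factorial_pos (n + 1))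
    (by rw [Nat.factorial_succ]; push_cast; ring)
    (by
      refine le_trans (Nat.choose_le_pow_div (n + 1) (M - 2)) ?_
      apply div_le_div_of_nonneg_right _ (by positivity)
      exact pow_le_pow_left₀ (Nat.cast_nonneg _) hM2 _)
  have hb2 : bb q a (n + 3) s = 6 / 5 * 3 ^ n / a ^ 2 * (q * s) ^ n * (q * s) := by
    unfold bb
    rw [if_neg (by omega), show n + 3 - 2 = n + 1 by omega, show n + 3 - 3 = n by omega, pow_succ]
    ring
  have hac : a * s * Real.exp (q * s) = a * (s * Real.exp (q * s)) := by ring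
  rw [e3, e2, e1, ech, hb2, hac]
  have hwm : wm a (n + 3) = ((n : ℝ) + 3) * (((n : ℝ) + 3) - 1) * a := by
    unfold wm
    push_cast
    ring
  rw [hwm]
  have hv : 0 < q * s := by positivity
  have hr : 0 < q / a ^ 2 := by positivity
  have goal2 : ((((n + 3 : ℕ) : ℝ) - 2) / s + 19 / 20 / s - (((n + 3 : ℕ) : ℝ) + 2) * q) *
      (6 / 5 * 3 ^ n / a ^ 2 * (q * s) ^ n * (q * s)) =
      (6 / 5 * ((n : ℝ) + 1 + 19 / 20 - ((n : ℝ) + 5) * (q * s)) * 3 ^ n) *
        ((q / a ^ 2) * (q * s) ^ n) := by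
    push_cast
    generalize (q * s) ^ n = z
    field_simp
    ring
  rw [goal2]
  rcases Nat.eq_zero_or_pos n with h0 | h0
  · subst h0
    have hb1 : bb q a (0 + 2) s = 3 / 8 / a ^ 2 := by
      unfold bb
      rw [if_pos (by norm_num)]
    rw [hb1]
    simp only [pow_zero, mul_one] at hsec ⊢
    refine le_trans (add_le_add_right hsec _) ?_
    push_cast
    have k1 : 2 * ((3 - 1) * q * (3 / 8 / a ^ 2)) +
        27 / 100 * (0 + 2) * (q / a ^ 2) = 51 / 25 * (q / a ^ 2) := by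
      ring
    rw [k1]
    refine mul_le_mul_of_nonneg_right ?_ hr.le
    linarith
  · obtain ⟨k, rfl⟩ : ∃ k, n = k + 1 := ⟨n - 1, by omega⟩
    have hk : (0 : ℝ) ≤ (k : ℝ) := Nat.cast_nonneg k
    have hb1 : bb q a (k + 1 + 2) s = 6 / 5 * 3 ^ k / a ^ 2 * (q * s) ^ (k + 1) := by
      unfold bb
      rw [if_neg (by omega), show k + 1 + 2 - 3 = k by omega, show k + 1 + 2 - 2 = k + 1 by omega]
    rw [hb1]
    have hpow : (q * (s * Real.exp (q * s))) ^ (k + 1) ≤ 20 / 19 * 3 ^ k * (q * s) ^ (k + 1) := by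
      have k1 : q * (s * Real.exp (q * s)) = Real.exp (q * s) * (q * s) := by ring
      rw [k1, mul_pow]
      refine mul_le_mul_of_nonneg_right ?_ (by positivity)
      calc Real.exp (q * s) ^ (k + 1) ≤ (20 / 19) ^ (k + 1) :=
            pow_le_pow_left₀ hE0.le hE _
        _ = 20 / 19 * (20 / 19) ^ k := by rw [pow_succ]; ring
        _ ≤ 20 / 19 * 3 ^ k := by
            refine mul_le_mul_of_nonneg_left ?_ (by norm_num)
            exact pow_le_pow_left₀ (by norm_num) (by norm_num) k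
    have k1 := mul_le_mul_of_nonneg_left hpow
      (by positivity : 0 ≤ 27 / 100 * (((k + 1 : ℕ) : ℝ) + 2) * (q / a ^ 2))
    refine le_trans (add_le_add_right (hsec.trans k1) _) ?_
    have hY : 0 < 3 ^ k * ((q / a ^ 2) * (q * s) ^ (k + 1)) := by positivity
    have g1 : 2 * ((((k + 1 + 3 : ℕ) : ℝ) - 1) * q * (6 / 5 * 3 ^ k / a ^ 2 *
        (q * s) ^ (k + 1))) + 27 / 100 * (((k + 1 : ℕ) : ℝ) + 2) * (q / a ^ 2) *
          (20 / 19 * 3 ^ k * (q * s) ^ (k + 1)) =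
        (12 / 5 + 27 / 95) * ((k : ℝ) + 3) * (3 ^ k * ((q / a ^ 2) * (q * s) ^ (k + 1))) := by
      push_cast
      ring
    have g2 : (6 / 5 * (((k + 1 : ℕ) : ℝ) + 1 + 19 / 20 - (((k + 1 : ℕ) : ℝ) + 5) * (q * s)) *
        3 ^ (k + 1)) * ((q / a ^ 2) * (q * s) ^ (k + 1)) =
        (18 / 5 * ((k : ℝ) + 59 / 20 - ((k : ℝ) + 6) * (q * s))) *
          (3 ^ k * ((q / a ^ 2) * (q * s) ^ (k + 1))) := by
      push_cast
      rw [pow_succ 3 k]
      ring
    rw [g1, g2]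
    refine mul_le_mul_of_nonneg_right ?_ hY.le
    have k4 := mul_le_mul_of_nonneg_left hqs (by positivity : 0 ≤ (k : ℝ) + 6)
    linarith

end Pool.Agent.H68.BE
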