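import Pool.Agent.H68.BE.Bas
import Pool.Agent.H68.BE.EnD
import Pool.Agent.H68.BE.MuK
import Pool.Agent.H68.BE.L2B
import Pool.Agent.H68.BE.NuA

set_option autoImplicit false

/-!
# Module EnB: the bound for the entropies

`compare0`: as `compare`, on `(0, ∞)` with the limit `0` at `0`: for `0 < e < t` the function `f s * exp (c s)` is monotone on `[e, t]`, let `e → 0`.
`ent_le`: induction on `m ≥ 2`; `m = 2` is `ent_two`. `m ≥ 3`: `F s = bb m * N2 * pp 2 s - ent m s` tends to `0` at `0+` (`pp_cont`, `pp_zero`, `ent_tendsto`). For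
`s > 0` by `ent_deriv` and `pp 2' ≥ -(p+q) pp 2` (`pp_hasDeriv`, `pp_mono`):
`F' ≥ -(p+q) bb m N2 pp2 + (3/4) m p ent m - 2 (m-1) q ent (m-1) - (pp (m-1)/wm + 4 pp m/(mp)) ∑ exc^2`. Use `ent m = bb m N2 pp2 - F`, the induction hypothesis for
`ent (m-1)`, `pp_four` (the bracket is `≤ 27/25 pp (m-1)/wm`), `pp_ratio`, `exc_sq_lev` and `num_rec` times `N2 pp2 ≥ 0`: `F' ≥ -(3/4) m p F`. `compare0`.
-/

open Finset

namespace Pool.Agent.H68.BE

open Pool.Agent.H78.Bass

variable {M : ℕ} {p q a : ℝ} {w : Fin M → Fin M → ℝ}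

theorem bb_nonneg (H : Hyp p q a w) (m : ℕ) {s : ℝ} (hs : 0 ≤ s) : 0 ≤ bb q a m s := by
  have hq := H.hq
  have ha := H.a_pos
  unfold bb
  split_ifs
  · positivity
  · positivity

theorem bb_cont (q a : ℝ) (m : ℕ) : Continuous (bb q a m) := by
  by_cases h : m = 2
  · have hf : bb q a m = fun _ => 3 / 8 / a ^ 2 := by
      funext s
      unfold bb
      rw [if_pos h]
    rw [hf]
    exact continuous_const
  · have hf : bb q a m = fun s => 6 / 5 * 3 ^ (m - 3) / a ^ 2 * (q * s) ^ (m - 2) := by
      funext s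
      unfold bb
      rw [if_neg h]
    rw [hf]
    fun_prop

theorem bb_deriv (q a : ℝ) {m : ℕ} (h3 : 3 ≤ m) {s : ℝ} (hs : 0 < s) :
    HasDerivAt (bb q a m) (((m : ℝ) - 2) / s * bb q a m s) s := by
  obtain ⟨n, rfl⟩ : ∃ n, m = n + 3 := ⟨m - 3, by omega⟩
  have hf : bb q a (n + 3) = fun s => 6 / 5 * 3 ^ n / a ^ 2 * (q * s) ^ (n + 1) := by
    funext s
    unfold bb
    rw [if_neg (by omega), show n + 3 - 2 = n + 1 by omega, show n + 3 - 3 = n by omega]
  rw [hf]
  have h1 : HasDerivAt (fun s : ℝ => q * s) q s := by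
    simpa using (hasDerivAt_id s).const_mul q
  have h2 := (h1.pow (n + 1)).const_mul (6 / 5 * 3 ^ n / a ^ 2)
  refine h2.congr_deriv ?_
  have h4 : (q * s) ^ (n + 1) = (q * s) ^ n * (q * s) := pow_succ _ _
  show 6 / 5 * 3 ^ n / a ^ 2 * (((n + 1 : ℕ) : ℝ) * (q * s) ^ (n + 1 - 1) * q) =
    (((n + 3 : ℕ) : ℝ) - 2) / s * (6 / 5 * 3 ^ n / a ^ 2 * (q * s) ^ (n + 1))
  rw [h4, show n + 1 - 1 = n by omega]
  generalize (q * s) ^ n = z
  push_cast
  field_simp
  ring

private theorem EnB_step (H : Hyp p q a w) {m : ℕ} (h3 : 3 ≤ m) (hm : m ≤ M)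
    (ih : ∀ s, 0 < s → q * s ≤ 1 / 20 →
      ent p q a w (m - 1) s ≤ bb q a (m - 1) s * N2 a w * pp p q a M 2 s)
    {s : ℝ} (hs : 0 < s) (hqs : q * s ≤ 1 / 20) :
    ent p q a w m s ≤ bb q a m s * N2 a w * pp p q a M 2 s := by
  have hp := H.hp
  have hq := H.hq
  have hN := H.N2_nonneg
  have hM2 : 2 ≤ M := by omega
  have hm1 : (3 : ℝ) ≤ m := by exact_mod_cast h3
  have hex : ∀ r : ℝ, ∃ e : ℝ, 0 < r → HasDerivAt (ent p q a w m) e r ∧
      e ≤ -((m : ℝ) * (p - q)) * ent p q a w m r +
        2 * (((m : ℝ) - 1) * q * ent p q a w (m - 1) r) +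
        (pp p q a M (m - 1) r / wm a m + pp p q a M m r / ((m : ℝ) * q)) *
          ∑ B ∈ lev M m, exc a w B ^ 2 := by
    intro r
    by_cases hr : 0 < r
    · obtain ⟨e, he⟩ := ent_deriv H (by omega : 2 ≤ m) hm hr
      exact ⟨e, fun _ => he⟩
    · exact ⟨0, fun h => absurd h hr⟩
  choose e he using hex
  have key : 0 ≤ bb q a m s * N2 a w * pp p q a M 2 s - ent p q a w m s := by
    refine compare0T (f := fun r => bb q a m r * N2 a w * pp p q a M 2 r - ent p q a w m r)
      (f' := fun r => (((m : ℝ) - 2) / r * bb q a m r * N2 a w * pp p q a M 2 r +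
        bb q a m r * N2 a w *
        (-(lm p q a 2) * pp p q a M 2 r + wm a 2 * pp p q a M (2 - 1) r)) - e r)
      (c := (m : ℝ) * (p - q)) (T := 1 / 20 / q) ?_ ?_ ?_ hs (by rw [le_div_iff₀ hq]; linarith)
    · intro r hr
      exact (((bb_deriv q a h3 hr).mul_const (N2 a w)).mul (pp_hasDeriv p q a M le_rfl r)).sub
        (he r hr).1
    · intro r hr hrT
      have hqr : q * r ≤ 1 / 20 := by
        rw [le_div_iff₀ hq] at hrT
        linarith
      have h1 := (he r hr).2
      have h2 := pp_mono H le_rfl hM2 hr.le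
      have h4 := ih r hr hqr
      have h5 := pp_four H (by omega : 2 ≤ m) hm hr.le hqr
      have h6 := pp_ratio H h3 hm hr.le
      have h7 := exc_sq_lev H (by omega : 2 ≤ m)
      have h8 := num_rec H h3 hm hr hqr
      have hP2 := pp_nonneg H (by omega : 1 ≤ 2) hr.le
      have hPm1 := pp_nonneg H (by omega : 1 ≤ m - 1) hr.le
      have hw := H.wm_pos (by omega : 2 ≤ m)
      have hbb := bb_nonneg H m hr.le
      have hE : 0 ≤ ∑ B ∈ lev M m, exc a w B ^ 2 := Finset.sum_nonneg fun B _ => sq_nonneg _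
      have hK : 0 ≤ bb q a m r * N2 a w := mul_nonneg hbb hN
      -- the main term
      have hpl := pp_le H (m := 2) le_rfl hM2 hr.le
      have ha := H.a_pos
      have hP1 := pp_nonneg H (m := 2 - 1) (by norm_num) hr.le
      have a0 : 19 / 20 / r * pp p q a M 2 r ≤ wm a 2 * pp p q a M (2 - 1) r := by
        have hE := exp_le_E hqr
        rw [wm_two]
        rw [div_mul_eq_mul_div, div_le_iff₀ hr]
        have k1 : ((2 : ℕ) : ℝ) * a * r * Real.exp (q * r) * pp p q a M (2 - 1) r ≤
            ((2 : ℕ) : ℝ) * a * r * (20 / 19) * pp p q a M (2 - 1) r := by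
          refine mul_le_mul_of_nonneg_right ?_ hP1
          exact mul_le_mul_of_nonneg_left hE (by positivity)
        push_cast at k1 hpl
        linarith
      have a1 : bb q a m r * N2 a w * ((19 / 20 / r - (2 * p + 2 * q)) * pp p q a M 2 r) ≤
          bb q a m r * N2 a w *
            (-(lm p q a 2) * pp p q a M 2 r + wm a 2 * pp p q a M (2 - 1) r) := by
        refine mul_le_mul_of_nonneg_left ?_ hK
        have hlm : lm p q a 2 = 2 * p + 2 * q - 2 * a := by
          unfold lm
          rw [wm_two]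
          push_cast
          ring
        rw [hlm]
        have k2 : 0 ≤ 2 * a * pp p q a M 2 r := by positivity
        linarith
      -- the lower entropy
      have a2 : 2 * (((m : ℝ) - 1) * q * ent p q a w (m - 1) r) ≤
          2 * (((m : ℝ) - 1) * q * (bb q a (m - 1) r * N2 a w * pp p q a M 2 r)) := by
        have : 0 ≤ ((m : ℝ) - 1) * q := mul_nonneg (by linarith) hq.le
        have := mul_le_mul_of_nonneg_left h4 this
        linarith
      -- the bracket
      have a3 : pp p q a M (m - 1) r / wm a m + pp p q a M m r / ((m : ℝ) * q) ≤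
          27 / 25 / wm a m * ((a * r * Real.exp (q * r)) ^ (m - 3) *
            (((m - 1).factorial : ℝ) / 2)) * pp p q a M 2 r := by
        have b1 : pp p q a M (m - 1) r / wm a m + pp p q a M m r / ((m : ℝ) * q) ≤
            27 / 25 / wm a m * pp p q a M (m - 1) r := by
          have b2 : 27 / 25 / wm a m * pp p q a M (m - 1) r =
              pp p q a M (m - 1) r / wm a m + 2 / 25 * (pp p q a M (m - 1) r / wm a m) := by
            field_simp
            ring
          rw [b2]
          linarith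
        refine b1.trans ?_
        have b3 : 0 ≤ 27 / 25 / wm a m := by positivity
        calc 27 / 25 / wm a m * pp p q a M (m - 1) r
            ≤ 27 / 25 / wm a m * ((a * r * Real.exp (q * r)) ^ (m - 3) *
                (((m - 1).factorial : ℝ) / 2) * pp p q a M 2 r) :=
              mul_le_mul_of_nonneg_left h6 b3
          _ = _ := by ring
      have a4 : (pp p q a M (m - 1) r / wm a m + pp p q a M m r / ((m : ℝ) * q)) *
            ∑ B ∈ lev M m, exc a w B ^ 2 ≤
          27 / 25 / wm a m * ((a * r * Real.exp (q * r)) ^ (m - 3) *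
            (((m - 1).factorial : ℝ) / 2)) * pp p q a M 2 r *
              ((m.choose 2 : ℝ) * ((M - 2).choose (m - 2) : ℝ) * N2 a w) := by
        refine (mul_le_mul_of_nonneg_right a3 hE).trans ?_
        refine mul_le_mul_of_nonneg_left h7 ?_
        have hPm := pp_nonneg H (by omega : 1 ≤ m) hr.le
        have c1 : 0 ≤ pp p q a M (m - 1) r / wm a m + pp p q a M m r / ((m : ℝ) * q) := by
          positivity
        exact c1.trans a3
      -- the recursion
      have a5 := mul_le_mul_of_nonneg_right h8 (mul_nonneg hN hP2)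
      have e1 : (2 * (((m : ℝ) - 1) * q * bb q a (m - 1) r) +
          27 / 25 / wm a m * ((a * r * Real.exp (q * r)) ^ (m - 3) *
            (((m - 1).factorial : ℝ) / 2)) *
            ((m.choose 2 : ℝ) * ((M - 2).choose (m - 2) : ℝ))) * (N2 a w * pp p q a M 2 r) =
          2 * (((m : ℝ) - 1) * q * (bb q a (m - 1) r * N2 a w * pp p q a M 2 r)) +
          27 / 25 / wm a m * ((a * r * Real.exp (q * r)) ^ (m - 3) *
            (((m - 1).factorial : ℝ) / 2)) * pp p q a M 2 r *
              ((m.choose 2 : ℝ) * ((M - 2).choose (m - 2) : ℝ) * N2 a w) := by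
        ring
      rw [e1] at a5
      have e2 : (((m : ℝ) - 2) / r + 19 / 20 / r - ((m : ℝ) + 2) * q) * bb q a m r *
          (N2 a w * pp p q a M 2 r) =
          ((m : ℝ) - 2) / r * bb q a m r * N2 a w * pp p q a M 2 r +
            bb q a m r * N2 a w * ((19 / 20 / r - (2 * p + 2 * q)) * pp p q a M 2 r) +
            (2 * p - (m : ℝ) * q) * (bb q a m r * N2 a w * pp p q a M 2 r) := by
        ring
      rw [e2] at a5
      have e4 : 0 ≤ ((m : ℝ) - 2) * p * (bb q a m r * N2 a w * pp p q a M 2 r) := by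
        refine mul_nonneg (mul_nonneg (by linarith) hp.le) (mul_nonneg hK hP2)
      have e3 : -((m : ℝ) * (p - q)) *
          (bb q a m r * N2 a w * pp p q a M 2 r - ent p q a w m r) =
          -((m : ℝ) * (p - q)) * (bb q a m r * N2 a w * pp p q a M 2 r) -
            (-((m : ℝ) * (p - q)) * ent p q a w m r) := by
        ring
      show -((m : ℝ) * (p - q)) *
          (bb q a m r * N2 a w * pp p q a M 2 r - ent p q a w m r) ≤
        (((m : ℝ) - 2) / r * bb q a m r * N2 a w * pp p q a M 2 r +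
          bb q a m r * N2 a w *
        (-(lm p q a 2) * pp p q a M 2 r + wm a 2 * pp p q a M (2 - 1) r)) - e r
      rw [e3]
      have e6 : (2 * p - (m : ℝ) * q) * (bb q a m r * N2 a w * pp p q a M 2 r) +
          ((m : ℝ) - 2) * p * (bb q a m r * N2 a w * pp p q a M 2 r) =
          (m : ℝ) * (p - q) * (bb q a m r * N2 a w * pp p q a M 2 r) := by ring
      linarith
    · have h1 : Filter.Tendsto (fun r => bb q a m r * N2 a w * pp p q a M 2 r)
          (nhdsWithin 0 (Set.Ioi 0)) (nhds (bb q a m 0 * N2 a w * pp p q a M 2 0)) := by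
        have hc : Continuous (bb q a m) := bb_cont q a m
        exact (((hc.mul continuous_const).mul (pp_cont p q a M 2)).tendsto 0).mono_left
          nhdsWithin_le_nhds
      rw [pp_zero p q a M le_rfl, mul_zero] at h1
      have h2 := h1.sub (ent_tendsto H (by omega : 2 ≤ m) hm)
      rw [sub_zero] at h2
      exact h2
  linarith

theorem ent_le (H : Hyp p q a w) {m : ℕ} (h2 : 2 ≤ m) (hm : m ≤ M) {s : ℝ} (hs : 0 < s)
    (hqs : q * s ≤ 1 / 20) :
    ent p q a w m s ≤ bb q a m s * N2 a w * pp p q a M 2 s := by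
  induction m, h2 using Nat.le_induction generalizing s with
  | base => exact ent_two H hs hqs
  | succ n hn ih =>
    refine EnB_step H (by omega) hm ?_ hs hqs
    intro r hr hqr
    have h := ih (by omega) hr hqr
    rwa [Nat.add_sub_cancel]

end Pool.Agent.H68.BE
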