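import Pool.Agent.H68.BE.Bas
import Pool.Agent.H68.BE.ScA

set_option autoImplicit false

/-!
# Module ScB: bounds for the complete network

All by downward induction on `m` (from `m = M`, `Sc (M+1) = 0`, `lam M = 0`) and `compare`.
`Sc_lower`: `f = Sc m - exp (-m(p+q) t)`, `f' = -(mp + lam) f + lam Sc (m+1) + (m q - lam) exp (..) ≥ -(mp + lam) f` (`lam ≤ m q`,
`Sc (m+1) ≥ 0`; for `m = M` the last term is zero).
`bet_hasDeriv` (`m < M`): subtract the two equations: `bet' = -(mp + lam m) bet + p Sc (m+1) + lam (m+1) bet (m+1)`.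
`bet_nonneg`: `m = M`: `bet M = Sc M ≥ 0`; `m < M`: `compare`, `bet m 0 = 0`.
`Sc_upper`: `Sc' = -mp Sc - lam bet ≤ -mp Sc`: `compare` for `exp (-mp t) - Sc m`.
`bet_lower`: `b = p/(p+q) exp (-m(p+q)t) (1 - exp (-(p+q)t))` has `b' = -m(p+q) b + p exp (-(m+1)(p+q)t)`, and
`bet' ≥ -(m(p+q)) bet + p exp (-(m+1)(p+q)t)` (`lam ≤ m q`, `bet ≥ 0`, `Sc_lower`).
`bet_upper`: `b_m = p/(p-q) exp (-mpt) (1 - exp (-pt))`. `b_m' = -mp b_m + p/(p-q) p exp (-(m+1)pt)`. By downward induction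
`bet' ≤ -(mp + lam m) bet + p exp (-(m+1)pt) + lam (m+1) exp (-pt) b_m`, and `lam (m+1) ≤ lam m + q`, so
`(b_m - bet)' ≥ -(mp + lam m)(b_m - bet) + lam m b_m (1 - exp (-pt)) + exp (-(m+1)pt) (p^2/(p-q) - p - q p/(p-q) (1 - exp (-pt)))`
and the last bracket is `q p/(p-q) exp (-pt) ≥ 0`. For `m = M - 1` the term `lam M bet M` is zero.
-/

open Finset

namespace Pool.Agent.H68.BE

open Pool.Agent.H78.Bass

variable {M : ℕ} {p q a : ℝ} {w : Fin M → Fin M → ℝ}

private theorem ScB_down {M : ℕ} {Q : ℕ → Prop} (hM : Q M)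
    (hs : ∀ m, 1 ≤ m → m < M → Q (m + 1) → Q m) : ∀ m, 1 ≤ m → m ≤ M → Q m := by
  have h : ∀ d m, 1 ≤ m → m ≤ M → M - m = d → Q m := by
    intro d
    induction d with
    | zero =>
      intro m h1 h2 h3
      obtain rfl : m = M := by omega
      exact hM
    | succ d ih =>
      intro m h1 h2 h3
      exact hs m h1 (by omega) (ih (m + 1) (by omega) (by omega) (by omega))
  exact fun m h1 h2 => h _ m h1 h2 rfl

private theorem ScB_exp (c t : ℝ) :
    HasDerivAt (fun t => Real.exp (-c * t)) (-c * Real.exp (-c * t)) t := by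
  have h := ((hasDerivAt_id t).const_mul (-c)).exp
  simp only [id, mul_one] at h
  rw [mul_comm] at h
  exact h

private theorem ScB_mul (m : ℕ) (c t : ℝ) :
    Real.exp (-((m : ℝ) * c) * t) * Real.exp (-c * t) =
      Real.exp (-(((m + 1 : ℕ) : ℝ) * c) * t) := by
  rw [← Real.exp_add]
  congr 1
  push_cast
  ring

private theorem ScB_wm_nonneg (H : Hyp p q a w) {m : ℕ} (h1 : 1 ≤ m) : 0 ≤ wm a m := by
  have h := H.a_pos
  have h2 : (1 : ℝ) ≤ (m : ℝ) := by exact_mod_cast h1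
  unfold wm
  have h3 : 0 ≤ (m : ℝ) - 1 := by linarith
  positivity

private theorem ScB_M1 (H : Hyp p q a w) : 1 ≤ M := le_trans (by norm_num) H.hM

private theorem ScB_lower (H : Hyp p q a w) : ∀ m, 1 ≤ m → m ≤ M → ∀ t, 0 ≤ t →
    Real.exp (-((m : ℝ) * (p + q)) * t) ≤ Sc p q M m t := by
  have key : ∀ m, 1 ≤ m → m ≤ M → (∀ t, 0 ≤ t → 0 ≤ Sc p q M (m + 1) t) → ∀ t, 0 ≤ t →
      Real.exp (-((m : ℝ) * (p + q)) * t) ≤ Sc p q M m t := by
    intro m h1 hm hn t ht
    have h2 : ∀ s, HasDerivAt (fun s => Sc p q M m s - Real.exp (-((m : ℝ) * (p + q)) * s))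
        ((-((m : ℝ) * p + lam q a m) * Sc p q M m s + lam q a m * Sc p q M (m + 1) s) -
          (-((m : ℝ) * (p + q)) * Real.exp (-((m : ℝ) * (p + q)) * s))) s :=
      fun s => (Sc_hasDeriv H h1 hm s).sub (ScB_exp _ s)
    have h3 := compare (c := (m : ℝ) * p + lam q a m) h2 (fun s hs => ?_) ?_ ht
    · linarith
    · have h4 := hn s hs
      have h5 := H.lam_nonneg hm
      have h6 := ScB_wm_nonneg H h1
      have h7 := mul_nonneg h5 h4
      have h8 := mul_nonneg h6 (Real.exp_pos (-((m : ℝ) * (p + q)) * s)).le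
      have h9 : lam q a m = (m : ℝ) * q - wm a m := rfl
      have h10 : wm a m = (m : ℝ) * q - lam q a m := by rw [h9]; ring
      rw [h10] at h8
      nlinarith
    · rw [Sc_zero p q h1 hm]
      simp
  refine ScB_down (key M (ScB_M1 H) le_rfl fun t ht => ?_) ?_
  · rw [Sc_top p q t (ScB_M1 H)]
  · intro m h1 h2 h3
    exact key m h1 h2.le fun t ht => (Real.exp_pos _).le.trans (h3 t ht)

private theorem ScB_nonneg (H : Hyp p q a w) {m : ℕ} (h1 : 1 ≤ m) (hm : m ≤ M + 1) {t : ℝ}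
    (ht : 0 ≤ t) : 0 ≤ Sc p q M m t := by
  rcases hm.lt_or_eq with h | h
  · exact (Real.exp_pos _).le.trans (ScB_lower H m h1 (Nat.lt_succ_iff.1 h) t ht)
  · rw [h, Sc_top p q t (ScB_M1 H)]

theorem Sc_lower (H : Hyp p q a w) {m : ℕ} (h1 : 1 ≤ m) (hm : m ≤ M) {t : ℝ} (ht : 0 ≤ t) :
    Real.exp (-((m : ℝ) * (p + q)) * t) ≤ Sc p q M m t := by
  exact ScB_lower H m h1 hm t ht

theorem bet_hasDeriv (H : Hyp p q a w) {m : ℕ} (h1 : 1 ≤ m) (hm : m < M) (t : ℝ) :
    HasDerivAt (bet p q M m) (-((m : ℝ) * p + lam q a m) * bet p q M m t +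
      p * Sc p q M (m + 1) t + lam q a (m + 1) * bet p q M (m + 1) t) t := by
  have h2 := (Sc_hasDeriv H h1 hm.le t).sub (Sc_hasDeriv H (Nat.le_succ_of_le h1) hm t)
  have h3 : (-((m : ℝ) * p + lam q a m) * Sc p q M m t + lam q a m * Sc p q M (m + 1) t) -
      (-(((m + 1 : ℕ) : ℝ) * p + lam q a (m + 1)) * Sc p q M (m + 1) t +
        lam q a (m + 1) * Sc p q M (m + 1 + 1) t) =
      -((m : ℝ) * p + lam q a m) * bet p q M m t +
      p * Sc p q M (m + 1) t + lam q a (m + 1) * bet p q M (m + 1) t := by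
    unfold bet
    push_cast
    ring
  rw [← h3]
  exact h2

theorem bet_nonneg (H : Hyp p q a w) {m : ℕ} (h1 : 1 ≤ m) (hm : m ≤ M) {t : ℝ} (ht : 0 ≤ t) :
    0 ≤ bet p q M m t := by
  have key : ∀ m, 1 ≤ m → m ≤ M → ∀ t, 0 ≤ t → 0 ≤ bet p q M m t := by
    refine ScB_down ?_ ?_
    · intro t ht
      unfold bet
      rw [Sc_top p q t (ScB_M1 H), sub_zero]
      exact ScB_nonneg H (ScB_M1 H) (Nat.le_succ M) ht
    · intro m h1 hm ih t ht
      refine compare (c := (m : ℝ) * p + lam q a m) (fun s => bet_hasDeriv H h1 hm s)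
        (fun s hs => ?_) ?_ ht
      · have h2 := mul_nonneg H.hp.le (ScB_nonneg H (Nat.le_succ_of_le h1) (Nat.succ_le_succ hm.le) hs)
        have h3 := mul_nonneg (H.lam_nonneg (m := m + 1) hm) (ih s hs)
        linarith
      · unfold bet
        rw [Sc_zero p q h1 hm.le, Sc_zero p q (Nat.le_succ_of_le h1) hm]
        simp
  exact key m h1 hm t ht

theorem Sc_upper (H : Hyp p q a w) {m : ℕ} (h1 : 1 ≤ m) (hm : m ≤ M) {t : ℝ} (ht : 0 ≤ t) :
    Sc p q M m t ≤ Real.exp (-((m : ℝ) * p) * t) := by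
  have h2 : ∀ s, HasDerivAt (fun s => Real.exp (-((m : ℝ) * p) * s) - Sc p q M m s)
      ((-((m : ℝ) * p) * Real.exp (-((m : ℝ) * p) * s)) -
        (-((m : ℝ) * p + lam q a m) * Sc p q M m s + lam q a m * Sc p q M (m + 1) s)) s :=
    fun s => (ScB_exp _ s).sub (Sc_hasDeriv H h1 hm s)
  have h3 := compare (c := (m : ℝ) * p) h2 (fun s hs => ?_) ?_ ht
  · linarith
  · have h4 := mul_nonneg (H.lam_nonneg hm) (bet_nonneg H h1 hm hs)
    have h5 : bet p q M m s = Sc p q M m s - Sc p q M (m + 1) s := rfl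
    rw [h5] at h4
    linarith
  · rw [Sc_zero p q h1 hm]
    simp

theorem bet_lower (H : Hyp p q a w) {m : ℕ} (h1 : 1 ≤ m) (hm : m < M) {t : ℝ} (ht : 0 ≤ t) :
    p / (p + q) * Real.exp (-((m : ℝ) * (p + q)) * t) * (1 - Real.exp (-(p + q) * t)) ≤
      bet p q M m t := by
  have hpq : (0 : ℝ) < p + q := add_pos H.hp H.hq
  have h2 : ∀ s, HasDerivAt (fun s => bet p q M m s -
      p / (p + q) * Real.exp (-((m : ℝ) * (p + q)) * s) * (1 - Real.exp (-(p + q) * s)))
      ((-((m : ℝ) * p + lam q a m) * bet p q M m s +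
        p * Sc p q M (m + 1) s + lam q a (m + 1) * bet p q M (m + 1) s) -
      (p / (p + q) * (-((m : ℝ) * (p + q)) * Real.exp (-((m : ℝ) * (p + q)) * s)) *
        (1 - Real.exp (-(p + q) * s)) +
        p / (p + q) * Real.exp (-((m : ℝ) * (p + q)) * s) *
          -(-(p + q) * Real.exp (-(p + q) * s)))) s :=
    fun s => (bet_hasDeriv H h1 hm s).sub
      (((ScB_exp ((m : ℝ) * (p + q)) s).const_mul _).mul ((ScB_exp (p + q) s).const_sub 1))
  have h3 := compare (c := (m : ℝ) * (p + q)) h2 (fun s hs => ?_) ?_ ht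
  · linarith
  · have h4 := Sc_lower H (Nat.le_succ_of_le h1) hm hs
    have h5 := mul_nonneg (H.lam_nonneg (m := m + 1) hm) (bet_nonneg H (Nat.le_succ_of_le h1) hm hs)
    have h6 := ScB_mul m (p + q) s
    rw [← h6] at h4
    have h7 := mul_le_mul_of_nonneg_left h4 H.hp.le
    have h8 : p / (p + q) * (p + q) = p := div_mul_cancel₀ _ hpq.ne'
    have h9 := mul_nonneg (ScB_wm_nonneg H h1) (bet_nonneg H h1 hm.le hs)
    have h10 : wm a m = (m : ℝ) * q - lam q a m := by unfold lam; ring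
    rw [h10] at h9
    have h11 : p / (p + q) * Real.exp (-((m : ℝ) * (p + q)) * s) *
          -(-(p + q) * Real.exp (-(p + q) * s)) =
        p * (Real.exp (-((m : ℝ) * (p + q)) * s) * Real.exp (-(p + q) * s)) := by
      calc _ = (p / (p + q) * (p + q)) *
          (Real.exp (-((m : ℝ) * (p + q)) * s) * Real.exp (-(p + q) * s)) := by ring
        _ = _ := by rw [h8]
    rw [h11]
    nlinarith
  · unfold bet
    rw [Sc_zero p q h1 hm.le, Sc_zero p q (Nat.le_succ_of_le h1) hm]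
    simp

theorem bet_anti (H : Hyp p q a w) {m : ℕ} (h1 : 1 ≤ m) (hm : m + 1 < M) {t : ℝ} (ht : 0 ≤ t) :
    bet p q M (m + 1) t ≤ bet p q M m t := by
  have key : ∀ m, 1 ≤ m → m ≤ M → m + 1 < M → ∀ t, 0 ≤ t →
      bet p q M (m + 1) t ≤ bet p q M m t := by
    refine ScB_down (fun h => absurd h (by omega)) ?_
    intro m h1 hm ih hm2 t ht
    have h2 : ∀ s, HasDerivAt (fun s => bet p q M m s - bet p q M (m + 1) s)
        ((-((m : ℝ) * p + lam q a m) * bet p q M m s +
          p * Sc p q M (m + 1) s + lam q a (m + 1) * bet p q M (m + 1) s) -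
        (-(((m + 1 : ℕ) : ℝ) * p + lam q a (m + 1)) * bet p q M (m + 1) s +
          p * Sc p q M (m + 1 + 1) s + lam q a (m + 1 + 1) * bet p q M (m + 1 + 1) s)) s :=
      fun s => (bet_hasDeriv H h1 hm s).sub (bet_hasDeriv H (Nat.le_succ_of_le h1) hm2 s)
    have h3 := compare (c := (m : ℝ) * p + lam q a m) h2 (fun s hs => ?_) ?_ ht
    · linarith
    · have hb0 := bet_nonneg H (m := m + 1) (by omega) (by omega) hs
      have hl2 := H.lam_nonneg (m := m + 1 + 1) (by omega)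
      have hb : lam q a (m + 1 + 1) * bet p q M (m + 1 + 1) s ≤
          lam q a (m + 1 + 1) * bet p q M (m + 1) s := by
        rcases (Nat.succ_le_of_lt hm2).lt_or_eq with h8 | h8
        · exact mul_le_mul_of_nonneg_left (ih h8 s hs) hl2
        · have h9 : lam q a (m + 1 + 1) = 0 := by
            have h10 : m + 1 + 1 = M := h8
            rw [h10]
            exact H.lam_top
          rw [h9, zero_mul, zero_mul]
      have ha := H.a_pos
      have hp := H.hp
      have hc : 2 * lam q a (m + 1) - lam q a m - lam q a (m + 1 + 1) = 2 * a := by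
        unfold lam wm
        push_cast
        ring
      have hS : bet p q M (m + 1) s = Sc p q M (m + 1) s - Sc p q M (m + 1 + 1) s := rfl
      have h4 : 0 ≤ (2 * p + 2 * a) * bet p q M (m + 1) s := by positivity
      have h5 : p * Sc p q M (m + 1) s - p * Sc p q M (m + 1 + 1) s =
          p * bet p q M (m + 1) s := by rw [hS]; ring
      have h6 : (2 * lam q a (m + 1) - lam q a m - lam q a (m + 1 + 1)) *
          bet p q M (m + 1) s = 2 * a * bet p q M (m + 1) s := by rw [hc]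
      push_cast
      linarith
    · unfold bet
      rw [Sc_zero p q h1 hm.le, Sc_zero p q (Nat.le_succ_of_le h1) hm,
        Sc_zero p q (m := m + 1 + 1) (by omega) hm2]
      simp
  exact key m h1 (by omega) hm t ht

theorem bet_le_two (H : Hyp p q a w) {m : ℕ} (h2 : 2 ≤ m) (hm : m < M) {t : ℝ} (ht : 0 ≤ t) :
    bet p q M m t ≤ bet p q M 2 t := by
  induction m, h2 using Nat.le_induction with
  | base => exact le_rfl
  | succ m h2 ih => exact (bet_anti H (by omega) hm ht).trans (ih (by omega))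

end Pool.Agent.H68.BE
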