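import Pool.Agent.H68.BE.Bas
import Pool.Agent.H68.BE.KaA

set_option autoImplicit false

/-!
# Comparison of kap with bet 2 at early times
-/

open Finset

namespace Pool.Agent.H68.BE

open Pool.Agent.H78.Bass

variable {M : ℕ} {p q a : ℝ} {w : Fin M → Fin M → ℝ}

theorem kap_bet (H : Hyp p q a w) {m : ℕ} (h3 : 3 ≤ m) (hm : m < M) {t : ℝ} (ht : 0 ≤ t)
    (hqt : q * t ≤ 1 / 20) :
    kap p q a M m t ≤ 10 / 9 * t * bet p q M 2 t := by
  have hq := H.hq
  have h1 := kap_le H h3 hm ht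
  have hb2 := bet_nonneg H (m := 2) (by norm_num) (by omega) ht
  refine h1.trans (mul_le_mul_of_nonneg_right ?_ hb2)
  have hE : Real.exp (2 * q * t) ≤ 10 / 9 := by
    have e1 := Real.add_one_le_exp (-(1 / 10 : ℝ))
    have e2 : Real.exp (2 * q * t) ≤ Real.exp (1 / 10) := Real.exp_le_exp.2 (by linarith)
    have e3 : Real.exp (1 / 10) * Real.exp (-(1 / 10 : ℝ)) = 1 := by
      rw [← Real.exp_add]
      norm_num
    have e4 := Real.exp_pos (1 / 10 : ℝ)
    nlinarith
  have h5 := mul_le_mul_of_nonneg_left hE ht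
  linarith

end Pool.Agent.H68.BE
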