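import Pool.Agent.H68.BE.Bas
import Pool.Agent.H68.BE.MuB
import Pool.Agent.H68.BE.CnB
import Pool.Agent.H68.BE.ScB
import Pool.Agent.H68.BE.KaA

set_option autoImplicit false

/-!
# Module LyA: the derivative of the Lyapunov function

`LL_hasDeriv`. First sum: for `B = ∅` the term is zero (`mu_empty`). For `|B| = m ≥ 1` the derivative of `mu s B * Sc m (t-s)` is
`mu' Sc m - mu Sc m' = exc mu Sc m - lam m mu Sc (m+1) + phi s B Sc m` (`mu_hasDeriv`, `Sc_hasDeriv`, `exc_eq`, `wm + lam = m q`). Sum over all `B` level by level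
(`univ = ⋃ lev m`, `m ≤ M`): `∑ B ∈ lev (m+1), phi s B * Sc (m+1) = ∑ A ∈ lev m, (m q - wt w A) mu s A Sc (m+1)` (`sum_lev_erase`, `qin_compl`), together with
`-lam m mu Sc (m+1)` this is `-exc mu Sc (m+1)`. So the derivative is `∑ B, exc mu bet |B| = ∑ m ∈ Icc 2 (M-1), bet m (t-s) GG m s` (`exc_small`, `exc_univ`).
Second sum: `kap m (t-s) GG m s` has the derivative `(lm kap - bet) GG + kap ∑ exc (-(lm - exc) mu + phi) = -bet GG + kap (∑ exc^2 mu + ∑ exc phi)`. The terms
`bet m GG m`, `m ≥ 3`, cancel.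
`LL_zero`: `mu_zero`, `GG m 0 = 0` for `m ≥ 3`. `LL_end`: `Sc_zero`, `kap_zero`, `mu_empty`.
-/

open Finset

namespace Pool.Agent.H68.BE

open Pool.Agent.H78.Bass

variable {M : ℕ} {p q a : ℝ} {w : Fin M → Fin M → ℝ}

private theorem LyA_split (f : Finset (Fin M) → ℝ) :
    ∑ B : Finset (Fin M), f B = ∑ m ∈ range (M + 1), ∑ B ∈ lev M m, f B := by
  have h := Finset.sum_powerset (univ : Finset (Fin M)) f
  rw [Finset.powerset_univ, Finset.card_univ, Fintype.card_fin] at h
  exact h

private theorem LyA_exc_univ (H : Hyp p q a w) : exc a w (univ : Finset (Fin M)) = 0 := by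
  have h : wt w (univ : Finset (Fin M)) = (M : ℝ) * q := by
    unfold wt
    calc ∑ j : Fin M, ∑ k : Fin M, w k j = ∑ _j : Fin M, q :=
          Finset.sum_congr rfl fun j _ => H.hw.sum j
      _ = (M : ℝ) * q := by
          rw [Finset.sum_const, Finset.card_univ, Fintype.card_fin, nsmul_eq_mul]
  unfold exc
  rw [h, Finset.card_univ, Fintype.card_fin, ← H.ha]
  ring

private theorem LyA_lam (q a : ℝ) (m : ℕ) : lam q a m = (m : ℝ) * q - wm a m := rfl

private theorem LyA_shift {f : ℝ → ℝ} {f' t s : ℝ} (h : HasDerivAt f f' (t - s)) :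
    HasDerivAt (fun r => f (t - r)) (-f') s := by
  have h1 : HasDerivAt (fun r : ℝ => t - r) (-1) s := by
    simpa using (hasDerivAt_id s).const_sub t
  have h2 := h.comp s h1
  rw [mul_neg_one] at h2
  exact h2

private theorem LyA_GG0 (H : Hyp p q a w) (s : ℝ) : GG p q a w 0 s = 0 := by
  unfold GG
  refine Finset.sum_eq_zero fun B hB => ?_
  rw [exc_small H.hw.diag a B (by rw [mem_lev.1 hB]; omega), zero_mul]

private theorem LyA_GG1 (H : Hyp p q a w) (s : ℝ) : GG p q a w 1 s = 0 := by
  unfold GG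
  refine Finset.sum_eq_zero fun B hB => ?_
  rw [exc_small H.hw.diag a B (by rw [mem_lev.1 hB]), zero_mul]

private theorem LyA_GGM (H : Hyp p q a w) (s : ℝ) : GG p q a w M s = 0 := by
  unfold GG
  refine Finset.sum_eq_zero fun B hB => ?_
  have hB' : B = univ := by
    rw [← Finset.card_eq_iff_eq_univ, Fintype.card_fin]
    exact mem_lev.1 hB
  rw [hB', LyA_exc_univ H, zero_mul]

/-- the flux sum -/
private theorem LyA_flux (H : Hyp p q a w) (s : ℝ) (g : ℕ → ℝ) :
    ∑ B : Finset (Fin M), phi p q w s B * g B.card =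
      ∑ A : Finset (Fin M), ((A.card : ℝ) * q - wt w A) * mu p q w s A * g (A.card + 1) := by
  have e0 : ∀ m : ℕ, ∑ B ∈ lev M (m + 1), phi p q w s B * g B.card =
      ∑ A ∈ lev M m, ((A.card : ℝ) * q - wt w A) * mu p q w s A * g (A.card + 1) := by
    intro m
    have e1 := sum_lev_erase (M := M)
      (fun k A => qin w k A * mu p q w s A * g (A.card + 1)) m
    have e2 : ∑ B ∈ lev M (m + 1), phi p q w s B * g B.card =
        ∑ B ∈ lev M (m + 1), ∑ k ∈ B,
          qin w k (B.erase k) * mu p q w s (B.erase k) * g ((B.erase k).card + 1) := by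
      refine Finset.sum_congr rfl fun B hB => ?_
      unfold phi
      rw [Finset.sum_mul]
      refine Finset.sum_congr rfl fun k hk => ?_
      rw [Finset.card_erase_add_one hk]
    rw [e2, e1]
    refine Finset.sum_congr rfl fun A hA => ?_
    rw [← qin_compl H.hw A, Finset.sum_mul, Finset.sum_mul]
  rw [LyA_split, LyA_split, Finset.sum_range_succ', Finset.sum_range_succ]
  have e3 : ∑ B ∈ lev M 0, phi p q w s B * g B.card = 0 := by
    refine Finset.sum_eq_zero fun B hB => ?_
    have hB' : B = ∅ := Finset.card_eq_zero.1 (mem_lev.1 hB)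
    rw [hB']
    unfold phi
    rw [Finset.sum_empty, zero_mul]
  have e4 : ∑ A ∈ lev M M, ((A.card : ℝ) * q - wt w A) * mu p q w s A * g (A.card + 1) = 0 := by
    refine Finset.sum_eq_zero fun B hB => ?_
    have hc : B.card = M := mem_lev.1 hB
    have hB' : B = univ := by
      rw [← Finset.card_eq_iff_eq_univ, Fintype.card_fin]
      exact hc
    have h1 := LyA_exc_univ H
    have h2 : (B.card : ℝ) * q - wt w B = 0 := by
      rw [← hB', exc_eq, hc] at h1
      rw [hc, show wt w B = wm a M by linarith]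
      unfold wm
      rw [← H.ha]
      ring
    rw [h2, zero_mul, zero_mul]
  rw [e3, e4, add_zero, add_zero]
  exact Finset.sum_congr rfl fun m _ => e0 m

private theorem LyA_first (H : Hyp p q a w) (t s : ℝ) :
    HasDerivAt (fun r => ∑ B : Finset (Fin M), mu p q w r B * Sc p q M B.card (t - r))
      (∑ m ∈ Icc 2 (M - 1), bet p q M m (t - s) * GG p q a w m s) s := by
  have hB : ∀ B : Finset (Fin M),
      HasDerivAt (fun r => mu p q w r B * Sc p q M B.card (t - r))
        (exc a w B * mu p q w s B * Sc p q M B.card (t - s) +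
          phi p q w s B * Sc p q M B.card (t - s) -
          lam q a B.card * mu p q w s B * Sc p q M (B.card + 1) (t - s)) s := by
    intro B
    rcases Finset.eq_empty_or_nonempty B with rfl | hne
    · have h0 : (fun r => mu p q w r (∅ : Finset (Fin M)) *
          Sc p q M (∅ : Finset (Fin M)).card (t - r)) = fun _ => (0 : ℝ) := by
        funext r
        rw [mu_empty, zero_mul]
      rw [h0, mu_empty]
      have h1 : phi p q w s (∅ : Finset (Fin M)) = 0 := by
        unfold phi
        rw [Finset.sum_empty]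
      rw [h1]
      simpa using hasDerivAt_const s (0 : ℝ)
    · have hc : 1 ≤ B.card := Finset.card_pos.2 hne
      have hM : B.card ≤ M := by
        have := Finset.card_le_univ B
        rwa [Fintype.card_fin] at this
      have h1 := mu_hasDeriv p q w s B
      have h2 := LyA_shift (t := t) (s := s) (Sc_hasDeriv H hc hM (t - s))
      have h3 := h1.mul h2
      refine h3.congr_deriv ?_
      rw [exc_eq, LyA_lam]
      ring
  have hs := HasDerivAt.fun_sum (u := (univ : Finset (Finset (Fin M)))) fun B _ => hB B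
  refine hs.congr_deriv ?_
  rw [Finset.sum_sub_distrib, Finset.sum_add_distrib,
    LyA_flux H s (fun m => Sc p q M m (t - s)), ← Finset.sum_add_distrib, ← Finset.sum_sub_distrib]
  have e1 : ∀ B : Finset (Fin M), exc a w B * mu p q w s B * Sc p q M B.card (t - s) +
      ((B.card : ℝ) * q - wt w B) * mu p q w s B * Sc p q M (B.card + 1) (t - s) -
      lam q a B.card * mu p q w s B * Sc p q M (B.card + 1) (t - s) =
      exc a w B * mu p q w s B * bet p q M B.card (t - s) := by
    intro B
    unfold bet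
    rw [exc_eq, LyA_lam]
    ring
  rw [Finset.sum_congr rfl fun B _ => e1 B, LyA_split]
  have e2 : ∀ m ∈ range (M + 1), ∑ B ∈ lev M m, exc a w B * mu p q w s B *
      bet p q M B.card (t - s) = bet p q M m (t - s) * GG p q a w m s := by
    intro m _
    unfold GG
    rw [Finset.mul_sum]
    refine Finset.sum_congr rfl fun B hB => ?_
    rw [mem_lev.1 hB]
    ring
  rw [Finset.sum_congr rfl e2]
  symm
  refine Finset.sum_subset ?_ ?_
  · intro m hm
    rw [Finset.mem_Icc] at hm
    rw [Finset.mem_range]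
    omega
  · intro m hm hn
    rw [Finset.mem_range] at hm
    rw [Finset.mem_Icc] at hn
    have h3 := H.hM
    have hcase : m = 0 ∨ m = 1 ∨ m = M := by omega
    rcases hcase with h | h | h
    · rw [h, LyA_GG0 H, mul_zero]
    · rw [h, LyA_GG1 H, mul_zero]
    · rw [h, LyA_GGM H, mul_zero]

private theorem LyA_GG_deriv (s : ℝ) (m : ℕ) :
    HasDerivAt (fun r => GG p q a w m r)
      (∑ B ∈ lev M m, exc a w B * (-(lm p q a m - exc a w B) * mu p q w s B +
        phi p q w s B)) s := by
  unfold GG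
  refine HasDerivAt.fun_sum fun B hB => ?_
  have h1 := (mu_hasDeriv p q w s B).const_mul (exc a w B)
  refine h1.congr_deriv ?_
  have hc := mem_lev.1 hB
  rw [exc_eq, hc]
  unfold lm
  ring

private theorem LyA_second (H : Hyp p q a w) (t s : ℝ) :
    HasDerivAt (fun r => ∑ m ∈ Icc 3 (M - 1), kap p q a M m (t - r) * GG p q a w m r)
      (∑ m ∈ Icc 3 (M - 1), (-(bet p q M m (t - s) * GG p q a w m s) +
        kap p q a M m (t - s) * (∑ B ∈ lev M m, exc a w B ^ 2 * mu p q w s B +
          ∑ B ∈ lev M m, exc a w B * phi p q w s B))) s := by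
  refine HasDerivAt.fun_sum fun m hm => ?_
  rw [Finset.mem_Icc] at hm
  have h1 : 1 ≤ m := by omega
  have h2 : m < M := by omega
  have h3 := LyA_shift (t := t) (s := s) (kap_hasDeriv H h1 h2 (t - s))
  have h4 := h3.mul (LyA_GG_deriv (p := p) (q := q) (a := a) (w := w) s m)
  refine h4.congr_deriv ?_
  have e1 : ∑ B ∈ lev M m, exc a w B * (-(lm p q a m - exc a w B) * mu p q w s B +
      phi p q w s B) = -(lm p q a m) * GG p q a w m s +
      (∑ B ∈ lev M m, exc a w B ^ 2 * mu p q w s B +
        ∑ B ∈ lev M m, exc a w B * phi p q w s B) := by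
    unfold GG
    rw [Finset.mul_sum, ← Finset.sum_add_distrib, ← Finset.sum_add_distrib]
    refine Finset.sum_congr rfl fun B _ => ?_
    ring
  rw [e1]
  ring

theorem LL_hasDeriv (H : Hyp p q a w) (t s : ℝ) :
    HasDerivAt (LL p q a w t) (bet p q M 2 (t - s) * GG p q a w 2 s +
      ∑ m ∈ Icc 3 (M - 1), kap p q a M m (t - s) *
        (∑ B ∈ lev M m, exc a w B ^ 2 * mu p q w s B +
          ∑ B ∈ lev M m, exc a w B * phi p q w s B)) s := by
  have h := (LyA_first H t s).add (LyA_second H t s)
  have e0 : LL p q a w t = fun r => (∑ B : Finset (Fin M), mu p q w r B *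
      Sc p q M B.card (t - r)) + ∑ m ∈ Icc 3 (M - 1), kap p q a M m (t - r) *
        GG p q a w m r := by
    funext r
    rfl
  rw [e0]
  refine h.congr_deriv ?_
  have h3 := H.hM
  have e1 : Icc 2 (M - 1) = insert 2 (Icc 3 (M - 1)) := by
    ext m
    rw [Finset.mem_insert, Finset.mem_Icc, Finset.mem_Icc]
    omega
  have e2 : (2 : ℕ) ∉ Icc 3 (M - 1) := by
    rw [Finset.mem_Icc]
    omega
  rw [e1, Finset.sum_insert e2, Finset.sum_add_distrib, Finset.sum_neg_distrib]
  ring

theorem LL_zero (H : Hyp p q a w) (t : ℝ) : LL p q a w t 0 = Sc p q M 1 t := by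
  unfold LL
  have hM3 := H.hM
  have hM0 : (M : ℝ) ≠ 0 := by
    have : 0 < M := by omega
    exact_mod_cast this.ne'
  have e1 : ∑ B : Finset (Fin M), mu p q w 0 B * Sc p q M B.card (t - 0) = Sc p q M 1 t := by
    rw [LyA_split, sub_zero]
    have e2 : ∀ m ∈ range (M + 1), m ≠ 1 →
        ∑ B ∈ lev M m, mu p q w 0 B * Sc p q M B.card t = 0 := by
      intro m _ hm
      refine Finset.sum_eq_zero fun B hB => ?_
      rw [mu_zero, mem_lev.1 hB, if_neg hm, zero_mul]
    rw [Finset.sum_eq_single_of_mem 1 (Finset.mem_range.2 (by omega)) e2]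
    have e3 : ∀ B ∈ lev M 1, mu p q w 0 B * Sc p q M B.card t = 1 / (M : ℝ) * Sc p q M 1 t := by
      intro B hB
      rw [mu_zero, mem_lev.1 hB, if_pos rfl]
    rw [Finset.sum_congr rfl e3, Finset.sum_const, nsmul_eq_mul]
    have e4 : (lev M 1).card = M := by
      unfold lev
      rw [Finset.card_powersetCard, Finset.card_univ, Fintype.card_fin, Nat.choose_one_right]
    rw [e4]
    field_simp
  rw [e1]
  have e5 : ∑ m ∈ Icc 3 (M - 1), kap p q a M m (t - 0) * GG p q a w m 0 = 0 := by
    refine Finset.sum_eq_zero fun m hm => ?_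
    rw [Finset.mem_Icc] at hm
    have hG : GG p q a w m 0 = 0 := by
      unfold GG
      refine Finset.sum_eq_zero fun B hB => ?_
      rw [mu_zero, mem_lev.1 hB, if_neg (by omega), mul_zero]
    rw [hG, mul_zero]
  rw [e5, add_zero]

theorem LL_end (H : Hyp p q a w) (t : ℝ) : LL p q a w t t = ∑ B, mu p q w t B := by
  unfold LL
  rw [sub_self]
  have e1 : ∑ m ∈ Icc 3 (M - 1), kap p q a M m 0 * GG p q a w m t = 0 := by
    refine Finset.sum_eq_zero fun m _ => ?_
    rw [kap_zero, zero_mul]
  rw [e1, add_zero]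
  refine Finset.sum_congr rfl fun B _ => ?_
  rcases Finset.eq_empty_or_nonempty B with rfl | hne
  · rw [mu_empty, zero_mul]
  · have hc : 1 ≤ B.card := Finset.card_pos.2 hne
    have hM : B.card ≤ M := by
      have := Finset.card_le_univ B
      rwa [Fintype.card_fin] at this
    rw [Sc_zero p q hc hM, mul_one]

end Pool.Agent.H68.BE
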