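import Pool.Agent.H68.BE.Bas
import Pool.Agent.H8.B4.NumE

set_option autoImplicit false

/-!
# Numbers, the sum
-/

open Finset

namespace Pool.Agent.H68.BE

open Pool.Agent.H78.Bass

variable {M : ℕ} {p q a : ℝ} {w : Fin M → Fin M → ℝ}

theorem num_sum (H : Hyp p q a w) {s r : ℝ} (hs : 0 ≤ s) (hqs : q * s ≤ 1 / 20) (hr : 0 ≤ r)
    (hqr : q * r ≤ 1 / 20) :
    ∑ m ∈ Icc 3 (M - 1), ((m : ℝ) - 1) * q * wm a m * (10 / 9 * r) *
      bb q a (m - 1) s ≤ 9 / 10 / wm a 2 := by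
  have hq := H.hq
  have ha := H.a_pos
  have h := Pool.Agent.H8.B4.num_sumE' (u := q * r) (v := q * s) (by positivity) (by positivity)
    (by linarith) (by linarith) M
  have h2 : ∑ m ∈ Icc 3 (M - 1), ((m : ℝ) - 1) * q * wm a m * (10 / 9 * r) *
      bb q a (m - 1) s = (∑ m ∈ Finset.Icc 3 (M - 1), (m : ℝ) * ((m : ℝ) - 1) ^ 2
      * (if m = 3 then 3 / 8 else 6 / 5 * 3 ^ (m - 4) * (q * s) ^ (m - 3)) *
        (10 / 9 * (q * r))) / a := by
    rw [sum_div]
    refine sum_congr rfl fun m hm => ?_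
    have h3 : 3 ≤ m := (mem_Icc.1 hm).1
    unfold bb wm
    by_cases h4 : m = 3
    · subst h4
      rw [if_pos (by norm_num), if_pos rfl]
      field_simp
    · rw [if_neg (by omega), if_neg h4, show m - 1 - 3 = m - 4 by omega,
        show m - 1 - 2 = m - 3 by omega]
      generalize (q * s) ^ (m - 3) = z
      field_simp
  rw [h2, wm_two, div_le_div_iff₀ ha (by positivity)]
  have := mul_le_mul_of_nonneg_right h (by positivity : 0 ≤ 2 * a)
  linarith

end Pool.Agent.H68.BE
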