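import Pool.Agent.H68.BE.Bas
import Pool.Agent.H68.BE.LyA
import Pool.Agent.H68.BE.EnB
import Pool.Agent.H68.BE.KaB
import Pool.Agent.H68.BE.NuB

set_option autoImplicit false

/-!
# Module LyB: the sign of the derivative

`GG_two` times `bet 2 ≥ 0`. For `3 ≤ m ≤ M-1`: `kap ≥ 0`, `∑ exc^2 mu ≥ 0`, `chn` and `ent_le` for `m - 1`: the bracket is `≥ -wm m (m-1) q bb (m-1) N2 pp 2 s`; then
`kap_bet` and `num_sum` (times `bet 2 * N2 * pp 2 ≥ 0`): the sum is `≥ -(4/5)/wm 2 * bet 2 * N2 * pp 2`.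
-/

open Finset

namespace Pool.Agent.H68.BE

open Pool.Agent.H78.Bass

variable {M : ℕ} {p q a : ℝ} {w : Fin M → Fin M → ℝ}

theorem LL_deriv_ge (H : Hyp p q a w) {t s : ℝ} (hs : 0 < s) (hst : s ≤ t)
    (hqt : q * t ≤ 1 / 20) :
    1 / 10 * bet p q M 2 (t - s) * (N2 a w / wm a 2 * pp p q a M 2 s) ≤
      bet p q M 2 (t - s) * GG p q a w 2 s +
      ∑ m ∈ Icc 3 (M - 1), kap p q a M m (t - s) *
        (∑ B ∈ lev M m, exc a w B ^ 2 * mu p q w s B +
          ∑ B ∈ lev M m, exc a w B * phi p q w s B) := by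
  have hM : 2 ≤ M := by have := H.hM; omega
  have hts : 0 ≤ t - s := by linarith
  have hb2 : 0 ≤ bet p q M 2 (t - s) := bet_nonneg H (by norm_num) hM hts
  have hN : 0 ≤ N2 a w := H.N2_nonneg
  have hP : 0 ≤ pp p q a M 2 s := pp_nonneg H (by norm_num) hs.le
  have hGG : N2 a w / wm a 2 * pp p q a M 2 s ≤ GG p q a w 2 s := GG_two H hs.le
  have h1 : bet p q M 2 (t - s) * (N2 a w / wm a 2 * pp p q a M 2 s) ≤
      bet p q M 2 (t - s) * GG p q a w 2 s := mul_le_mul_of_nonneg_left hGG hb2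
  have hp := H.hp
  have hq := H.hq
  have ha := H.a_pos
  have hbb : ∀ m : ℕ, 0 ≤ bb q a m s := fun m => bb_nonneg H m hs.le
  have hqs : q * s ≤ 1 / 20 := (mul_le_mul_of_nonneg_left hst hq.le).trans hqt
  have hqts : q * (t - s) ≤ 1 / 20 := by
    have : 0 < q * s := mul_pos hq hs
    linarith
  have hterm : ∀ m ∈ Icc 3 (M - 1),
      -(((m : ℝ) - 1) * q * wm a m * (10 / 9 * (t - s)) * bb q a (m - 1) s) *
        (bet p q M 2 (t - s) * N2 a w * pp p q a M 2 s) ≤
      kap p q a M m (t - s) *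
        (∑ B ∈ lev M m, exc a w B ^ 2 * mu p q w s B +
          ∑ B ∈ lev M m, exc a w B * phi p q w s B) := by
    intro m hm
    rw [mem_Icc] at hm
    obtain ⟨h3, hmM⟩ := hm
    have hmM' : m < M := by omega
    have hm1 : (0 : ℝ) ≤ (m : ℝ) - 1 := by
      have : (3 : ℝ) ≤ (m : ℝ) := by exact_mod_cast h3
      linarith
    have hwm : 0 < wm a m := H.wm_pos (by omega)
    have hk0 : 0 ≤ kap p q a M m (t - s) := kap_nonneg H (by omega) hmM' hts
    have hk1 := kap_bet H h3 hmM' hts hqts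
    have hS1 : 0 ≤ ∑ B ∈ lev M m, exc a w B ^ 2 * mu p q w s B :=
      sum_nonneg fun B _ => mul_nonneg (sq_nonneg _) (mu_nonneg H.hw p hs.le B)
    have hS2 := chn H (m := m) (by omega) hs
    have hent := ent_le H (m := m - 1) (by omega) (by omega) hs hqs
    set X : ℝ := wm a m * (((m : ℝ) - 1) * q * (bb q a (m - 1) s * N2 a w * pp p q a M 2 s))
      with hX
    have hX0 : 0 ≤ X := by
      have := hbb (m - 1)
      positivity
    have h4 : wm a m * (((m : ℝ) - 1) * q * ent p q a w (m - 1) s) ≤ X := by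
      refine mul_le_mul_of_nonneg_left ?_ hwm.le
      exact mul_le_mul_of_nonneg_left hent (by positivity)
    have h5 : -X ≤ ∑ B ∈ lev M m, exc a w B ^ 2 * mu p q w s B +
        ∑ B ∈ lev M m, exc a w B * phi p q w s B := by linarith
    have h6 : kap p q a M m (t - s) * (-X) ≤ kap p q a M m (t - s) *
        (∑ B ∈ lev M m, exc a w B ^ 2 * mu p q w s B +
          ∑ B ∈ lev M m, exc a w B * phi p q w s B) := mul_le_mul_of_nonneg_left h5 hk0
    have h7 : kap p q a M m (t - s) * X ≤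
        10 / 9 * (t - s) * bet p q M 2 (t - s) * X :=
      mul_le_mul_of_nonneg_right hk1 hX0
    have h8 : -(((m : ℝ) - 1) * q * wm a m * (10 / 9 * (t - s)) *
        bb q a (m - 1) s) * (bet p q M 2 (t - s) * N2 a w * pp p q a M 2 s) =
        -(10 / 9 * (t - s) * bet p q M 2 (t - s) * X) := by
      rw [hX]
      ring
    rw [h8]
    linarith
  have hsum := sum_le_sum hterm
  rw [← sum_mul] at hsum
  have hnum := num_sum H hs.le hqs hts hqts
  have hY : 0 ≤ bet p q M 2 (t - s) * N2 a w * pp p q a M 2 s := by positivity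
  have h9 : -(9 / 10 / wm a 2) * (bet p q M 2 (t - s) * N2 a w * pp p q a M 2 s) ≤
      (∑ m ∈ Icc 3 (M - 1), -(((m : ℝ) - 1) * q * wm a m *
        (10 / 9 * (t - s)) * bb q a (m - 1) s)) *
        (bet p q M 2 (t - s) * N2 a w * pp p q a M 2 s) := by
    refine mul_le_mul_of_nonneg_right ?_ hY
    rw [sum_neg_distrib]
    exact neg_le_neg hnum
  have h10 : 1 / 10 * bet p q M 2 (t - s) * (N2 a w / wm a 2 * pp p q a M 2 s) =
      bet p q M 2 (t - s) * (N2 a w / wm a 2 * pp p q a M 2 s) +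
        -(9 / 10 / wm a 2) * (bet p q M 2 (t - s) * N2 a w * pp p q a M 2 s) := by ring
  rw [h10]
  exact add_le_add h1 (h9.trans hsum)

end Pool.Agent.H68.BE
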