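import Pool.Agent.H68.BE.Bas

set_option autoImplicit false

/-!
# Module PaE: two inequalities for the exponential function

`pade`: `F x = 1 - x/2 + x^2/12 - (1 + x/2 + x^2/12) exp (-x)`, `F 0 = 0`, `F' x = -1/2 + x/6 + (1/2 + x/3 + x^2/12) exp (-x)`,
`F' 0 = 0`, `F'' x = 1/6 - (1/6 + x/6 + x^2/12) exp (-x) ≥ 0` since `exp x ≥ 1 + x + x^2/2` (`Real.quadratic_le_exp_of_nonneg`);
`monotoneOn_of_deriv_nonneg` twice. `F ≥ 0` is the claim: `(1 + x/2 + x^2/12)(1 - exp (-x)) - x = F x`.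
`pade2`: `x/2 + x^2/12 ≤ x/2 * exp (x/6)` (`Real.add_one_le_exp`).
`xexp`: `c x ≤ exp (c x - 1)` (`Real.add_one_le_exp`), so `x exp (-c x) ≤ exp (-1) / c`, and `exp 1 > 2.7`
(`Real.exp_one_gt_d9`).
-/

open Finset

namespace Pool.Agent.H68.BE

open Pool.Agent.H78.Bass

variable {M : ℕ} {p q a : ℝ} {w : Fin M → Fin M → ℝ}

private theorem PaE_nonneg {F F' : ℝ → ℝ} (hF : ∀ x, HasDerivAt F (F' x) x) (h0 : F 0 = 0)
    (hn : ∀ x, 0 ≤ x → 0 ≤ F' x) {x : ℝ} (hx : 0 ≤ x) : 0 ≤ F x := by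
  have hm : MonotoneOn F (Set.Ici 0) := by
    refine monotoneOn_of_deriv_nonneg (convex_Ici 0)
      (fun y _ => (hF y).continuousAt.continuousWithinAt)
      (fun y _ => (hF y).differentiableAt.differentiableWithinAt) (fun y hy => ?_)
    rw [(hF y).deriv]
    rw [interior_Ici] at hy
    exact hn y (le_of_lt hy)
  have h1 := hm (Set.mem_Ici.2 le_rfl) (Set.mem_Ici.2 hx) hx
  rw [h0] at h1
  exact h1

private theorem PaE_exp (x : ℝ) : HasDerivAt (fun x : ℝ => Real.exp (-x)) (-Real.exp (-x)) x := by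
  have h := (hasDerivAt_neg x).exp
  exact h.congr_deriv (by ring)

private theorem PaE_poly (a b c x : ℝ) :
    HasDerivAt (fun x : ℝ => a + b * x + c * x ^ 2) (b + 2 * c * x) x := by
  have h := ((hasDerivAt_const x a).add ((hasDerivAt_id x).const_mul b)).add
    ((hasDerivAt_pow 2 x).const_mul c)
  exact h.congr_deriv (by push_cast; ring)

theorem pade {x : ℝ} (hx : 0 ≤ x) : x ≤ (1 + x / 2 + x ^ 2 / 12) * (1 - Real.exp (-x)) := by
  have h2 : ∀ y : ℝ, 0 ≤ y →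
      0 ≤ (1 / 6 : ℝ) - (1 / 6 + y / 6 + y ^ 2 / 12) * Real.exp (-y) := by
    intro y hy
    have h3 := Real.quadratic_le_exp_of_nonneg hy
    have h4 : Real.exp y * Real.exp (-y) = 1 := by
      rw [← Real.exp_add]; simp
    have h5 : (1 + y + y ^ 2 / 2) * Real.exp (-y) ≤ 1 :=
      (mul_le_mul_of_nonneg_right h3 (Real.exp_pos _).le).trans h4.le
    nlinarith
  have h1 : ∀ y : ℝ, 0 ≤ y →
      0 ≤ (-1 / 2 + 1 / 6 * y + 0 * y ^ 2) + (1 / 2 + 1 / 3 * y + 1 / 12 * y ^ 2) *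
        Real.exp (-y) := by
    intro y hy
    refine PaE_nonneg (F := fun y : ℝ => (-1 / 2 + 1 / 6 * y + 0 * y ^ 2) +
      (1 / 2 + 1 / 3 * y + 1 / 12 * y ^ 2) * Real.exp (-y))
      (F' := fun y : ℝ => (1 / 6 : ℝ) - (1 / 6 + y / 6 + y ^ 2 / 12) * Real.exp (-y))
      (fun z => ?_) (by simp; norm_num) h2 hy
    have h := (PaE_poly (-1 / 2) (1 / 6) 0 z).add
      ((PaE_poly (1 / 2) (1 / 3) (1 / 12) z).mul (PaE_exp z))
    exact h.congr_deriv (by ring)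
  have h0 : 0 ≤ (1 + (-1 / 2) * x + 1 / 12 * x ^ 2) -
      (1 + 1 / 2 * x + 1 / 12 * x ^ 2) * Real.exp (-x) := by
    refine PaE_nonneg (F := fun y : ℝ => (1 + (-1 / 2) * y + 1 / 12 * y ^ 2) -
      (1 + 1 / 2 * y + 1 / 12 * y ^ 2) * Real.exp (-y))
      (F' := fun y : ℝ => (-1 / 2 + 1 / 6 * y + 0 * y ^ 2) +
        (1 / 2 + 1 / 3 * y + 1 / 12 * y ^ 2) * Real.exp (-y))
      (fun z => ?_) (by simp) h1 hx
    have h := (PaE_poly 1 (-1 / 2) (1 / 12) z).sub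
      ((PaE_poly 1 (1 / 2) (1 / 12) z).mul (PaE_exp z))
    exact h.congr_deriv (by ring)
  nlinarith

theorem pade2 {x : ℝ} (hx : 0 ≤ x) :
    x - (1 - Real.exp (-x)) ≤ x / 2 * Real.exp (x / 6) * (1 - Real.exp (-x)) := by
  have h1 := pade hx
  have h2 := Real.add_one_le_exp (x / 6)
  have h3 : 0 ≤ 1 - Real.exp (-x) := by
    have : Real.exp (-x) ≤ 1 := Real.exp_le_one_iff.2 (by linarith)
    linarith
  have h4 : x / 2 + x ^ 2 / 12 ≤ x / 2 * Real.exp (x / 6) := by nlinarith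
  have h5 : (x / 2 + x ^ 2 / 12) * (1 - Real.exp (-x)) ≤
      x / 2 * Real.exp (x / 6) * (1 - Real.exp (-x)) := mul_le_mul_of_nonneg_right h4 h3
  linarith

theorem xexp {c x : ℝ} (hc : 0 < c) (hx : 0 ≤ x) : x * Real.exp (-c * x) ≤ 10 / 27 / c := by
  have h1 := Real.add_one_le_exp (c * x - 1)
  have h2 : c * x ≤ Real.exp (c * x - 1) := by linarith
  have h3 : c * x * Real.exp (-c * x) ≤ Real.exp (-1) := by
    calc c * x * Real.exp (-c * x) ≤ Real.exp (c * x - 1) * Real.exp (-c * x) :=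
          mul_le_mul_of_nonneg_right h2 (Real.exp_pos _).le
      _ = Real.exp (-1) := by
          rw [← Real.exp_add]
          congr 1
          ring
  have h4 : Real.exp (-1) ≤ 10 / 27 := by
    rw [Real.exp_neg]
    have h5 := Real.exp_one_gt_d9
    have h6 : (27 / 10 : ℝ) ≤ Real.exp 1 := by linarith
    calc (Real.exp 1)⁻¹ ≤ (27 / 10 : ℝ)⁻¹ := inv_anti₀ (by norm_num) h6
      _ = 10 / 27 := by norm_num
  rw [le_div_iff₀ hc]
  calc x * Real.exp (-c * x) * c = c * x * Real.exp (-c * x) := by ring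
    _ ≤ 10 / 27 := h3.trans h4

end Pool.Agent.H68.BE
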